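import Pool.Agent.H995.EA.Energy

/-!
# Counting boundary bonds in a forest with a few additional bonds
-/

set_option autoImplicit false

namespace Pool.Agent.H995.EA

open Finset

variable {X E : Type}

/-- A reference configuration: the forest `T` has no cycles, so all products along its bonds can be
prescribed. -/
lemma exists_reference (a b : E → X) (T : Set E) (dep : X → ℕ)
    (hpar : ∀ e ∈ T, ∀ e' ∈ T, b e = b e' → e = e')
    (hdep : ∀ e ∈ T, dep (b e) = dep (a e) + 1) (s : E → ℝ) (hs : ∀ e, s e = 1 ∨ s e = -1) :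
    ∃ η : X → ℝ, (∀ x, η x = 1 ∨ η x = -1) ∧ ∀ e ∈ T, η (b e) = s e * η (a e) := by
  classical
  let g : ℕ → X → ℝ := fun n => Nat.rec (fun _ => 1)
    (fun _ f x => if h : ∃ e ∈ T, b e = x then s h.choose * f (a h.choose) else 1) n
  have g1 : ∀ n x, g (n + 1) x =
      if h : ∃ e ∈ T, b e = x then s h.choose * g n (a h.choose) else 1 := fun _ _ => rfl
  have gpm : ∀ n x, g n x = 1 ∨ g n x = -1 := by
    intro n
    induction n with
    | zero => intro x; exact Or.inl rfl
    | succ n ih =>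
      intro x
      rw [g1]
      split_ifs with h
      · rcases hs h.choose with h1 | h1 <;> rcases ih (a h.choose) with h2 | h2 <;>
          rw [h1, h2] <;> norm_num
      · exact Or.inl rfl
  refine ⟨fun x => g (dep x) x, fun x => gpm _ x, fun e he => ?_⟩
  have h : ∃ e' ∈ T, b e' = b e := ⟨e, he, rfl⟩
  have hch : h.choose = e := hpar _ h.choose_spec.1 _ he h.choose_spec.2
  show g (dep (b e)) (b e) = s e * g (dep (a e)) (a e)
  rw [hdep e he, g1, dif_pos h, hch]

variable [DecidableEq X] [DecidableEq E]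

/-- The forest bonds of the boundary which are satisfied in all reference configurations. -/
noncomputable def tb (a b : E → X) (inc : X → Finset E) (T F : Set E) (A : Finset X) : Finset E :=
  open Classical in (bd a b inc A).filter fun e => e ∈ T ∧ e ∉ F

lemma mem_tb {a b : E → X} {inc : X → Finset E} {T F : Set E} {A : Finset X} {e : E} :
    e ∈ tb a b inc T F A ↔ e ∈ bd a b inc A ∧ e ∈ T ∧ e ∉ F := by
  classical
  unfold tb
  rw [mem_filter]

lemma card_tb {a b : E → X} {inc : X → Finset E} (hinc : IsInc a b inc) {T F : Set E} {c : ℕ}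
    (hchild : ∀ x, c ≤ {e | e ∈ T ∧ a e = x}.ncard)
    (hpar : ∀ e ∈ T, ∀ e' ∈ T, b e = b e' → e = e')
    (hF : ∀ x, ∀ e ∈ F, ∀ e' ∈ F, e ∈ inc x → e' ∈ inc x → e = e') (A : Finset X) :
    c * A.card ≤ (tb a b inc T F A).card + 2 * A.card := by
  classical
  let ch : X → Finset E := fun x => (inc x).filter fun e => e ∈ T ∧ a e = x
  have hch : ∀ x, c ≤ (ch x).card := by
    intro x
    refine (hchild x).trans (le_of_eq ?_)
    rw [← Set.ncard_coe_finset]
    congr 1
    ext e
    simp only [ch, Set.mem_ofPred_eq, coe_filter]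
    exact ⟨fun h => ⟨(hinc _ _).2 (Or.inl h.2), h⟩, fun h => h.2⟩
  have hdisj : (A : Set X).PairwiseDisjoint ch := by
    intro x _ y _ hxy
    show Disjoint (ch x) (ch y)
    rw [disjoint_left]
    intro e he he'
    simp only [ch, mem_filter] at he he'
    exact hxy (he.2.2.symm.trans he'.2.2)
  have hcard : (A.biUnion ch).card = ∑ x ∈ A, (ch x).card := card_biUnion hdisj
  have h1 : c * A.card ≤ (A.biUnion ch).card := by
    rw [hcard]
    calc c * A.card = ∑ _x ∈ A, c := by rw [sum_const, smul_eq_mul, mul_comm]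
      _ ≤ _ := sum_le_sum fun x _ => hch x
  have hsub : A.biUnion ch ⊆ tb a b inc T F A ∪
      ((A.biUnion ch).filter (fun e => b e ∈ A) ∪ (A.biUnion ch).filter (fun e => e ∈ F)) := by
    intro e he
    rw [mem_union, mem_union, mem_filter, mem_filter, mem_tb, mem_bd hinc]
    have he2 := he
    rw [mem_biUnion] at he2
    obtain ⟨x, hx, hex⟩ := he2
    simp only [ch, mem_filter] at hex
    by_cases hb : b e ∈ A
    · exact Or.inr (Or.inl ⟨he, hb⟩)
    · by_cases hf : e ∈ F
      · exact Or.inr (Or.inr ⟨he, hf⟩)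
      · refine Or.inl ⟨?_, hex.2.1, hf⟩
        intro hiff
        exact hb (hiff.1 (by rw [hex.2.2]; exact hx))
  have h2 : ((A.biUnion ch).filter (fun e => b e ∈ A)).card ≤ A.card := by
    refine card_le_card_of_injOn b (fun e he => (mem_filter.1 he).2) ?_
    intro e he e' he' h
    simp only [coe_filter, mem_biUnion, Set.mem_ofPred_eq, ch, mem_filter] at he he'
    obtain ⟨⟨x, -, hx⟩, -⟩ := he
    obtain ⟨⟨x', -, hx'⟩, -⟩ := he'
    exact hpar e hx.2.1 e' hx'.2.1 h
  have h3 : ((A.biUnion ch).filter (fun e => e ∈ F)).card ≤ A.card := by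
    refine card_le_card_of_injOn a (fun e he => ?_) ?_
    · simp only [coe_filter, mem_biUnion, Set.mem_ofPred_eq, ch, mem_filter] at he
      obtain ⟨⟨x, hx, hx'⟩, -⟩ := he
      rw [hx'.2.2]
      exact hx
    · intro e he e' he' h
      simp only [coe_filter, mem_biUnion, Set.mem_ofPred_eq, ch, mem_filter] at he he'
      exact hF (a e) e he.2 e' he'.2 ((hinc _ _).2 (Or.inl rfl)) ((hinc _ _).2 (Or.inl h.symm))
  have h4 := card_le_card hsub
  have h5 := card_union_le (tb a b inc T F A)
    ((A.biUnion ch).filter (fun e => b e ∈ A) ∪ (A.biUnion ch).filter (fun e => e ∈ F))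
  have h6 := card_union_le ((A.biUnion ch).filter (fun e => b e ∈ A))
    ((A.biUnion ch).filter (fun e => e ∈ F))
  omega

lemma card_ob {a b : E → X} {inc : X → Finset E} (hinc : IsInc a b inc) {T F : Set E} {Δ : ℕ}
    (hother : ∀ x, {e | e ∉ T ∧ (a e = x ∨ b e = x)}.ncard ≤ Δ)
    (hF : ∀ x, ∀ e ∈ F, ∀ e' ∈ F, e ∈ inc x → e' ∈ inc x → e = e') (A : Finset X) :
    (bd a b inc A \ tb a b inc T F A).card ≤ (Δ + 1) * A.card := by
  classical
  let ot : X → Finset E := fun x => (inc x).filter fun e => e ∉ T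
  let fo : X → Finset E := fun x => (inc x).filter fun e => e ∈ F
  have hot : ∀ x, (ot x).card ≤ Δ := by
    intro x
    refine le_trans (le_of_eq ?_) (hother x)
    rw [← Set.ncard_coe_finset]
    congr 1
    ext e
    simp only [ot, Set.mem_ofPred_eq, coe_filter]
    exact ⟨fun h => ⟨h.2, (hinc _ _).1 h.1⟩, fun h => ⟨(hinc _ _).2 h.2, h.1⟩⟩
  have hfo : ∀ x, (fo x).card ≤ 1 := by
    intro x
    rw [card_le_one]
    intro e he e' he'
    simp only [fo, mem_filter] at he he'
    exact hF x e he.2 e' he'.2 he.1 he'.1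
  have hsub : bd a b inc A \ tb a b inc T F A ⊆ A.biUnion fun x => ot x ∪ fo x := by
    intro e he
    rw [mem_sdiff, mem_tb] at he
    obtain ⟨x, hx, hex⟩ := mem_biUnion.1 (mem_filter.1 he.1).1
    refine mem_biUnion.2 ⟨x, hx, ?_⟩
    rw [mem_union]
    by_cases hT : e ∈ T
    · by_cases hf : e ∈ F
      · exact Or.inr (mem_filter.2 ⟨hex, hf⟩)
      · exact absurd ⟨he.1, hT, hf⟩ he.2
    · exact Or.inl (mem_filter.2 ⟨hex, hT⟩)
  calc (bd a b inc A \ tb a b inc T F A).card ≤ (A.biUnion fun x => ot x ∪ fo x).card :=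
        card_le_card hsub
    _ ≤ ∑ x ∈ A, (ot x ∪ fo x).card := card_biUnion_le
    _ ≤ ∑ _x ∈ A, (Δ + 1) := sum_le_sum fun x _ =>
        (card_union_le _ _).trans (Nat.add_le_add (hot x) (hfo x))
    _ = (Δ + 1) * A.card := by rw [sum_const, smul_eq_mul, mul_comm]

/-- the sets of sites whose spins may be flipped -/
def Bad (a b : E → X) (inc : X → Finset E) (T F : Set E) (J : E → ℝ) (A : Finset X) : Prop :=
  ∑ e ∈ tb a b inc T F A, |J e| ≤ ∑ e ∈ bd a b inc A \ tb a b inc T F A, |J e|

/-- the boundary energy of a set which is not bad is positive -/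
lemma pos_of_not_bad {a b : E → X} {inc : X → Finset E} {T F : Set E}
    {J : E → ℝ} {A : Finset X} (hA : ¬Bad a b inc T F J A) {η : X → ℝ}
    (hη : ∀ x, η x = 1 ∨ η x = -1) (hs : ∀ e ∈ T, e ∉ F → J e * (η (a e) * η (b e)) = |J e|) :
    0 < ∑ e ∈ bd a b inc A, J e * (η (a e) * η (b e)) := by
  unfold Bad at hA
  push Not at hA
  have hsub : tb a b inc T F A ⊆ bd a b inc A := fun e he => (mem_tb.1 he).1
  rw [← sum_sdiff hsub]
  have h1 : ∑ e ∈ tb a b inc T F A, J e * (η (a e) * η (b e)) = ∑ e ∈ tb a b inc T F A, |J e| :=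
    sum_congr rfl fun e he => hs e (mem_tb.1 he).2.1 (mem_tb.1 he).2.2
  have h2 : -∑ e ∈ bd a b inc A \ tb a b inc T F A, |J e| ≤
      ∑ e ∈ bd a b inc A \ tb a b inc T F A, J e * (η (a e) * η (b e)) := by
    rw [← sum_neg_distrib]
    refine sum_le_sum fun e _ => ?_
    have h3 : |J e * (η (a e) * η (b e))| = |J e| := by
      rw [abs_mul, abs_mul]
      rcases hη (a e) with h | h <;> rcases hη (b e) with h' | h' <;> rw [h, h'] <;> simp
    rw [← h3]
    exact neg_abs_le _
  rw [h1]
  linarith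

end Pool.Agent.H995.EA
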