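import Pool.Agent.H995.EA.Graph

/-!
# Infinite-volume ground states which agree with a reference configuration at the good sites
-/

set_option autoImplicit false

namespace Pool.Agent.H995.EA

open Finset

/-- `ρ` is a ground state for the couplings `J`: every configuration `ρ'` which differs from it at
finitely many sites (and at least one) has a larger energy. -/
def IsGroundState {X E : Type} (a b : E → X) (J : E → ℝ) (ρ : X → ℝ) : Prop :=
  (∀ x, ρ x = 1 ∨ ρ x = -1) ∧
  ∀ ρ' : X → ℝ, (∀ x, ρ' x = 1 ∨ ρ' x = -1) → {x | ρ' x ≠ ρ x}.Finite → ρ' ≠ ρ →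
    0 < ∑ᶠ e : E, J e * (ρ (a e) * ρ (b e) - ρ' (a e) * ρ' (b e))

variable {X E : Type} [DecidableEq X] [DecidableEq E]

/-- the boundary of a finite set of sites -/
def bd (a b : E → X) (inc : X → Finset E) (A : Finset X) : Finset E :=
  (A.biUnion inc).filter fun e => ¬(a e ∈ A ↔ b e ∈ A)

lemma mem_bd {a b : E → X} {inc : X → Finset E} (hinc : IsInc a b inc) {A : Finset X} {e : E} :
    e ∈ bd a b inc A ↔ ¬(a e ∈ A ↔ b e ∈ A) := by
  unfold bd
  rw [mem_filter, and_iff_right_iff_imp]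
  intro h
  rw [mem_biUnion]
  by_cases ha : a e ∈ A
  · exact ⟨a e, ha, (hinc _ _).2 (Or.inl rfl)⟩
  · have hb : b e ∈ A := by tauto
    exact ⟨b e, hb, (hinc _ _).2 (Or.inr rfl)⟩

/-- flip the spins in `A` -/
def flip (A : Finset X) (σ : X → ℝ) : X → ℝ := fun x => if x ∈ A then -σ x else σ x

lemma flip_mul {a b : E → X} {inc : X → Finset E} (hinc : IsInc a b inc) (A : Finset X)
    (σ : X → ℝ) (e : E) :
    flip A σ (a e) * flip A σ (b e) =
      if e ∈ bd a b inc A then -(σ (a e) * σ (b e)) else σ (a e) * σ (b e) := by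
  simp only [mem_bd hinc, flip]
  by_cases ha : a e ∈ A <;> by_cases hb : b e ∈ A <;> simp [ha, hb]

/-- energy of the bonds in `B` -/
def en (a b : E → X) (J : E → ℝ) (B : Finset E) (σ : X → ℝ) : ℝ :=
  -∑ e ∈ B, J e * (σ (a e) * σ (b e))

lemma bd_subset {a b : E → X} {inc : X → Finset E} {A Λ : Finset X}
    (hA : A ⊆ Λ) : bd a b inc A ⊆ Λ.biUnion inc :=
  (filter_subset _ _).trans (biUnion_subset_biUnion_of_subset_left _ hA)

lemma en_flip {a b : E → X} {inc : X → Finset E} (hinc : IsInc a b inc) (J : E → ℝ)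
    {A Λ : Finset X} (hA : A ⊆ Λ) (σ : X → ℝ) :
    en a b J (Λ.biUnion inc) (flip A σ) - en a b J (Λ.biUnion inc) σ =
      2 * ∑ e ∈ bd a b inc A, J e * (σ (a e) * σ (b e)) := by
  have h1 : ∑ e ∈ bd a b inc A, J e * (σ (a e) * σ (b e)) =
      ∑ e ∈ Λ.biUnion inc, if e ∈ bd a b inc A then J e * (σ (a e) * σ (b e)) else 0 := by
    rw [← sum_filter]
    congr 1
    ext e
    rw [mem_filter]
    exact ⟨fun h => ⟨bd_subset hA h, h⟩, fun h => h.2⟩
  unfold en
  rw [h1, mul_sum, neg_sub_neg, ← sum_sub_distrib]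
  refine sum_congr rfl fun e _ => ?_
  rw [flip_mul hinc]
  split_ifs <;> ring

lemma flip_pm {σ : X → ℝ} (hσ : ∀ x, σ x = 1 ∨ σ x = -1) (A : Finset X) (x : X) :
    flip A σ x = 1 ∨ flip A σ x = -1 := by
  unfold flip
  split_ifs
  · rcases hσ x with h | h <;> rw [h] <;> simp
  · exact hσ x

lemma flip_flip (A D : Finset X) (σ : X → ℝ) : flip A (flip D σ) = flip (symmDiff D A) σ := by
  funext x
  simp only [flip, mem_symmDiff]
  by_cases hA : x ∈ A <;> by_cases hD : x ∈ D <;> simp [hA, hD]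

/-- a criterion for ground states -/
lemma isGroundState_of {a b : E → X} {inc : X → Finset E} (hinc : IsInc a b inc) {J : E → ℝ}
    {σ : X → ℝ} (hσ : ∀ x, σ x = 1 ∨ σ x = -1)
    (h : ∀ A : Finset X, A.Nonempty → 0 < ∑ e ∈ bd a b inc A, J e * (σ (a e) * σ (b e))) :
    IsGroundState a b J σ := by
  refine ⟨hσ, fun ρ hρ hfin hne => ?_⟩
  have hA : (hfin.toFinset).Nonempty := by
    rw [Set.Finite.toFinset_nonempty]
    by_contra hcon
    rw [Set.not_nonempty_iff_eq_empty] at hcon
    apply hne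
    funext x
    by_contra hx
    have : x ∈ ({x | ρ x ≠ σ x} : Set X) := hx
    rw [hcon] at this
    exact this
  have hflip : ρ = flip hfin.toFinset σ := by
    funext x
    unfold flip
    split_ifs with hx
    · have hx' : ρ x ≠ σ x := (Set.Finite.mem_toFinset hfin).1 hx
      rcases hσ x with h1 | h1 <;> rcases hρ x with h2 | h2
      · exact absurd (h2.trans h1.symm) hx'
      · rw [h1, h2]
      · rw [h1, h2]; norm_num
      · exact absurd (h2.trans h1.symm) hx'
    · have hx' : ¬(ρ x ≠ σ x) := fun h => hx ((Set.Finite.mem_toFinset hfin).2 h)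
      push Not at hx'
      exact hx'
  have hs : ∑ᶠ e : E, J e * (σ (a e) * σ (b e) - ρ (a e) * ρ (b e)) =
      ∑ e ∈ bd a b inc hfin.toFinset, 2 * (J e * (σ (a e) * σ (b e))) := by
    rw [finsum_eq_sum_of_support_subset (s := bd a b inc hfin.toFinset)]
    · refine sum_congr rfl fun e he => ?_
      rw [hflip, flip_mul hinc, if_pos he]
      ring
    · intro e he
      by_contra hcon
      apply he
      show J e * (σ (a e) * σ (b e) - ρ (a e) * ρ (b e)) = 0
      rw [hflip, flip_mul hinc, if_neg (by simpa using hcon)]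
      ring
  rw [hs, ← mul_sum]
  have := h _ hA
  linarith

/-- **Ground states from a reference configuration.** If the boundary energy of `η` is positive for
all connected sets which contain a good site, then there is an infinite-volume ground state which
agrees with `η` at all good sites. -/
theorem exists_ground {a b : E → X} {inc : X → Finset E} (hinc : IsInc a b inc) {J : E → ℝ}
    {η : X → ℝ} (hη : ∀ x, η x = 1 ∨ η x = -1)
    (hgen : ∀ B : Finset E, B.Nonempty → ∀ s : E → ℝ, (∀ e, s e = 1 ∨ s e = -1) →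
      ∑ e ∈ B, J e * s e ≠ 0)
    (hbd : ∀ A : Finset X, A.Nonempty → (bd a b inc A).Nonempty)
    (Good : X → Prop)
    (hgood : ∀ x, Good x → ∀ m, ∀ A ∈ cov a b inc m x, A.card = m + 1 →
      0 < ∑ e ∈ bd a b inc A, J e * (η (a e) * η (b e))) :
    ∃ σ : X → ℝ, IsGroundState a b J σ ∧ ∀ x, Good x → σ x = η x := by
  classical
  -- ground states in finite volumes
  have hmin : ∀ Λ : Finset X, ∃ D ⊆ Λ, ∀ D' ⊆ Λ,
      en a b J (Λ.biUnion inc) (flip D η) ≤ en a b J (Λ.biUnion inc) (flip D' η) := by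
    intro Λ
    obtain ⟨D, hD, h⟩ := exists_min_image Λ.powerset
      (fun D => en a b J (Λ.biUnion inc) (flip D η)) ⟨∅, empty_mem_powerset _⟩
    exact ⟨D, mem_powerset.1 hD, fun D' hD' => h D' (mem_powerset.2 hD')⟩
  choose D hDΛ hD using hmin
  have hbad : ∀ Λ x, x ∈ D Λ → ¬Good x := by
    intro Λ x hx hg
    obtain ⟨m, B, hB, hc, hBD, hcl⟩ := exists_component hinc (D Λ) hx
    have h1 := hgood x hg m B hB hc
    have hBΛ : B ⊆ Λ := hBD.trans (hDΛ Λ)
    have h2 := en_flip hinc J hBΛ (flip (D Λ) η)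
    rw [flip_flip] at h2
    have h3 := hD Λ (symmDiff (D Λ) B) (by
      intro y hy
      rw [mem_symmDiff] at hy
      rcases hy with h | h
      · exact hDΛ Λ h.1
      · exact hBΛ h.1)
    have h4 : ∑ e ∈ bd a b inc B, J e * (flip (D Λ) η (a e) * flip (D Λ) η (b e)) =
        -∑ e ∈ bd a b inc B, J e * (η (a e) * η (b e)) := by
      rw [← sum_neg_distrib]
      refine sum_congr rfl fun e he => ?_
      rw [flip_mul hinc, if_pos, mul_neg]
      rw [mem_bd hinc] at he ⊢
      intro hiff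
      apply he
      by_cases ha : a e ∈ B
      · have hb : b e ∈ B := hcl _ ha (b e) ((mem_nbr hinc).2 ⟨e, Or.inl ⟨rfl, rfl⟩⟩)
          (hiff.1 (hBD ha))
        exact ⟨fun _ => hb, fun _ => ha⟩
      · by_cases hb : b e ∈ B
        · exact absurd (hcl _ hb (a e) ((mem_nbr hinc).2 ⟨e, Or.inr ⟨rfl, rfl⟩⟩)
            (hiff.2 (hBD hb))) ha
        · exact ⟨fun h => absurd h ha, fun h => absurd h hb⟩
    rw [h4] at h2
    linarith
  -- the limit along an ultrafilter
  let U : Ultrafilter (Finset X) := Ultrafilter.of Filter.atTop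
  have hU : (U : Filter (Finset X)) ≤ Filter.atTop := Ultrafilter.of_le _
  let σ : X → ℝ := fun x => if ∀ᶠ Λ in (U : Filter (Finset X)), x ∈ D Λ then -η x else η x
  have hlim : ∀ x, ∀ᶠ Λ in (U : Filter (Finset X)), flip (D Λ) η x = σ x := by
    intro x
    by_cases h : ∀ᶠ Λ in (U : Filter (Finset X)), x ∈ D Λ
    · filter_upwards [h] with Λ hΛ
      simp only [flip, σ, if_pos h, if_pos hΛ]
    · have h' := Ultrafilter.eventually_not.2 h
      filter_upwards [h'] with Λ hΛ
      simp only [flip, σ, if_neg h, if_neg hΛ]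
  have hσ : ∀ x, σ x = 1 ∨ σ x = -1 := by
    intro x
    simp only [σ]
    split_ifs
    · rcases hη x with h | h <;> rw [h] <;> simp
    · exact hη x
  refine ⟨σ, isGroundState_of hinc hσ fun A hA => ?_, fun x hx => ?_⟩
  · have hev : ∀ᶠ Λ in (U : Filter (Finset X)), (∀ e ∈ bd a b inc A,
        flip (D Λ) η (a e) = σ (a e) ∧ flip (D Λ) η (b e) = σ (b e)) := by
      rw [Filter.eventually_all_finset]
      intro e _
      exact (hlim (a e)).and (hlim (b e))
    have hev2 : ∀ᶠ Λ in (U : Filter (Finset X)), A ⊆ Λ :=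
      hU (Filter.eventually_ge_atTop A)
    obtain ⟨Λ, h1, h2⟩ := (hev.and hev2).exists
    have h3 : ∑ e ∈ bd a b inc A, J e * (σ (a e) * σ (b e)) =
        ∑ e ∈ bd a b inc A, J e * (flip (D Λ) η (a e) * flip (D Λ) η (b e)) :=
      sum_congr rfl fun e he => by rw [(h1 e he).1, (h1 e he).2]
    have h4 := en_flip hinc J h2 (flip (D Λ) η)
    rw [flip_flip, ← h3] at h4
    have h5 := hD Λ (symmDiff (D Λ) A) (by
      intro y hy
      rw [mem_symmDiff] at hy
      rcases hy with h | h
      · exact hDΛ Λ h.1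
      · exact h2 h.1)
    have h6 : 0 ≤ ∑ e ∈ bd a b inc A, J e * (σ (a e) * σ (b e)) := by linarith
    refine lt_of_le_of_ne h6 (Ne.symm ?_)
    apply hgen _ (hbd A hA) (fun e => σ (a e) * σ (b e))
    intro e
    rcases hσ (a e) with h | h <;> rcases hσ (b e) with h' | h' <;> rw [h, h'] <;> norm_num
  · simp only [σ]
    rw [if_neg]
    intro hcon
    obtain ⟨Λ, hΛ⟩ := hcon.exists
    exact hbad Λ x hΛ hx

end Pool.Agent.H995.EA
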