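import Mathlib

/-!
# Walks and connected sets in a locally finite multigraph

The bond `e` joins `a e` and `b e`; `inc x` is the finite set of the bonds at `x`.
-/

set_option autoImplicit false

namespace Pool.Agent.H995.EA

open Finset

variable {X E : Type} [DecidableEq X]

/-- `inc` lists the bonds at each site -/
def IsInc (a b : E → X) (inc : X → Finset E) : Prop := ∀ x e, e ∈ inc x ↔ a e = x ∨ b e = x

/-- the neighbours of a site -/
def nbr (a b : E → X) (inc : X → Finset E) (x : X) : Finset X :=
  (inc x).image fun e => if a e = x then b e else a e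

lemma mem_nbr {a b : E → X} {inc : X → Finset E} (hinc : IsInc a b inc) {x y : X} :
    y ∈ nbr a b inc x ↔ ∃ e, (a e = x ∧ b e = y) ∨ (a e = y ∧ b e = x) := by
  unfold nbr
  rw [mem_image]
  constructor
  · rintro ⟨e, he, h⟩
    refine ⟨e, ?_⟩
    rw [hinc] at he
    by_cases ha : a e = x
    · rw [if_pos ha] at h
      exact Or.inl ⟨ha, h⟩
    · rw [if_neg ha] at h
      exact Or.inr ⟨h, he.resolve_left ha⟩
  · rintro ⟨e, ⟨h1, h2⟩ | ⟨h1, h2⟩⟩
    · exact ⟨e, (hinc _ _).2 (Or.inl h1), by rw [if_pos h1]; exact h2⟩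
    · refine ⟨e, (hinc _ _).2 (Or.inr h2), ?_⟩
      by_cases ha : a e = x
      · rw [if_pos ha, h2, ← ha, h1]
      · rw [if_neg ha]; exact h1

lemma nbr_comm {a b : E → X} {inc : X → Finset E} (hinc : IsInc a b inc) {x y : X} :
    y ∈ nbr a b inc x ↔ x ∈ nbr a b inc y := by
  rw [mem_nbr hinc, mem_nbr hinc]
  constructor
  · rintro ⟨e, h | h⟩
    · exact ⟨e, Or.inr h⟩
    · exact ⟨e, Or.inl h⟩
  · rintro ⟨e, h | h⟩
    · exact ⟨e, Or.inr h⟩
    · exact ⟨e, Or.inl h⟩

/-- the walks with `n` steps which start at `x` -/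
def walks (a b : E → X) (inc : X → Finset E) : ℕ → X → Finset (List X)
  | 0, x => {[x]}
  | n + 1, x => (nbr a b inc x).biUnion fun y => (walks a b inc n y).image (x :: ·)

lemma card_walks {a b : E → X} {inc : X → Finset E} {D : ℕ} (hD : ∀ x, (inc x).card ≤ D) (n : ℕ)
    (x : X) : (walks a b inc n x).card ≤ D ^ n := by
  induction n generalizing x with
  | zero => simp [walks]
  | succ n ih =>
    rw [walks]
    refine card_biUnion_le.trans ?_
    calc ∑ y ∈ nbr a b inc x, ((walks a b inc n y).image (x :: ·)).card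
        ≤ ∑ y ∈ nbr a b inc x, D ^ n := sum_le_sum fun y _ => card_image_le.trans (ih y)
      _ = (nbr a b inc x).card * D ^ n := by rw [sum_const, smul_eq_mul]
      _ ≤ D * D ^ n := Nat.mul_le_mul_right _ (card_image_le.trans (hD x))
      _ = D ^ (n + 1) := by ring

lemma walks_head {a b : E → X} {inc : X → Finset E} (n : ℕ) (x : X) {l : List X}
    (hl : l ∈ walks a b inc n x) : x ∈ l := by
  cases n with
  | zero => simp [walks] at hl; simp [hl]
  | succ n =>
    rw [walks, mem_biUnion] at hl
    obtain ⟨y, -, hy⟩ := hl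
    rw [mem_image] at hy
    obtain ⟨l', -, rfl⟩ := hy
    exact List.mem_cons_self

lemma walks_insert {a b : E → X} {inc : X → Finset E} (hinc : IsInc a b inc) (n : ℕ) (x : X)
    {l : List X} (hl : l ∈ walks a b inc n x) {y z : X} (hy : y ∈ l) (hz : z ∈ nbr a b inc y) :
    ∃ l' ∈ walks a b inc (n + 2) x, l'.toFinset = insert z l.toFinset := by
  have start : ∀ (n : ℕ) (x : X) (l : List X), l ∈ walks a b inc n x → z ∈ nbr a b inc x →
      ∃ l' ∈ walks a b inc (n + 2) x, l'.toFinset = insert z l.toFinset := by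
    intro n x l hl hz
    refine ⟨x :: z :: l, ?_, ?_⟩
    · rw [walks, mem_biUnion]
      refine ⟨z, hz, mem_image.2 ⟨z :: l, ?_, rfl⟩⟩
      rw [walks, mem_biUnion]
      exact ⟨x, (nbr_comm hinc).1 hz, mem_image.2 ⟨l, hl, rfl⟩⟩
    · have := walks_head n x hl
      ext w
      simp only [List.mem_toFinset, List.mem_cons, mem_insert]
      constructor
      · rintro (rfl | h | h)
        · exact Or.inr this
        · exact Or.inl h
        · exact Or.inr h
      · rintro (h | h)
        · exact Or.inr (Or.inl h)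
        · exact Or.inr (Or.inr h)
  induction n generalizing x l with
  | zero =>
    have hl' := hl
    simp only [walks, mem_singleton] at hl'
    rw [hl'] at hy
    rw [List.mem_singleton] at hy
    rw [hy] at hz
    exact start 0 x l hl hz
  | succ n ih =>
    have hl' := hl
    rw [walks, mem_biUnion] at hl'
    obtain ⟨w, hw, hl1⟩ := hl'
    rw [mem_image] at hl1
    obtain ⟨l1, hl1, rfl⟩ := hl1
    rcases List.mem_cons.1 hy with rfl | hy
    · exact start (n + 1) y _ hl hz
    · obtain ⟨l', hl', he⟩ := ih w hl1 hy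
      refine ⟨x :: l', ?_, ?_⟩
      · rw [walks, mem_biUnion]
        exact ⟨w, hw, mem_image.2 ⟨l', hl', rfl⟩⟩
      · rw [List.toFinset_cons, he, List.toFinset_cons, Finset.insert_comm]

/-- the sets covered by walks with `2 m` steps from `x` -/
def cov (a b : E → X) (inc : X → Finset E) (m : ℕ) (x : X) : Finset (Finset X) :=
  (walks a b inc (2 * m) x).image List.toFinset

lemma card_cov {a b : E → X} {inc : X → Finset E} {D : ℕ} (hD : ∀ x, (inc x).card ≤ D) (m : ℕ)
    (x : X) : (cov a b inc m x).card ≤ D ^ (2 * m) :=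
  card_image_le.trans (card_walks hD _ x)

lemma mem_of_cov {a b : E → X} {inc : X → Finset E} {m : ℕ} {x : X} {B : Finset X}
    (hB : B ∈ cov a b inc m x) : x ∈ B := by
  obtain ⟨l, hl, rfl⟩ := mem_image.1 hB
  exact List.mem_toFinset.2 (walks_head _ x hl)

lemma cov_insert {a b : E → X} {inc : X → Finset E} (hinc : IsInc a b inc) {m : ℕ} {x : X}
    {B : Finset X} (hB : B ∈ cov a b inc m x) {y z : X} (hy : y ∈ B) (hz : z ∈ nbr a b inc y) :
    insert z B ∈ cov a b inc (m + 1) x := by
  obtain ⟨l, hl, rfl⟩ := mem_image.1 hB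
  obtain ⟨l', hl', he⟩ := walks_insert hinc _ x hl (List.mem_toFinset.1 hy) hz
  exact mem_image.2 ⟨l', hl', he⟩

/-- each site of a finite set is in a connected component of this set -/
lemma exists_component {a b : E → X} {inc : X → Finset E} (hinc : IsInc a b inc) (S : Finset X)
    {x : X} (hx : x ∈ S) :
    ∃ m, ∃ B ∈ cov a b inc m x, B.card = m + 1 ∧ B ⊆ S ∧
      ∀ y ∈ B, ∀ z ∈ nbr a b inc y, z ∈ S → z ∈ B := by
  by_contra hcon
  push Not at hcon
  have key : ∀ m, ∃ B ∈ cov a b inc m x, B.card = m + 1 ∧ B ⊆ S := by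
    intro m
    induction m with
    | zero =>
      refine ⟨{x}, mem_image.2 ⟨[x], by simp [walks], by simp⟩, by simp, by simpa using hx⟩
    | succ m ih =>
      obtain ⟨B, hB, hc, hS⟩ := ih
      obtain ⟨y, hy, z, hz, hzS, hzB⟩ := hcon m B hB hc hS
      exact ⟨insert z B, cov_insert hinc hB hy hz, by rw [card_insert_of_notMem hzB, hc],
        insert_subset hzS hS⟩
  obtain ⟨B, -, hc, hS⟩ := key S.card
  have := card_le_card hS
  omega

/-- the sites at distance at most `n` -/
def near (a b : E → X) (inc : X → Finset E) : ℕ → X → Finset X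
  | 0, x => {x}
  | n + 1, x => (near a b inc n x).biUnion fun y => insert y (nbr a b inc y)

lemma near_self {a b : E → X} {inc : X → Finset E} (n : ℕ) (x : X) : x ∈ near a b inc n x := by
  induction n with
  | zero => simp [near]
  | succ n ih => rw [near, mem_biUnion]; exact ⟨x, ih, mem_insert_self _ _⟩

lemma near_trans {a b : E → X} {inc : X → Finset E} {n m : ℕ} {x y z : X}
    (hy : y ∈ near a b inc n x) (hz : z ∈ near a b inc m y) : z ∈ near a b inc (n + m) x := by
  induction m generalizing z with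
  | zero => simp only [near, mem_singleton] at hz; rw [hz]; exact hy
  | succ m ih =>
    rw [near, mem_biUnion] at hz
    obtain ⟨w, hw, hz⟩ := hz
    rw [← add_assoc, near, mem_biUnion]
    exact ⟨w, ih hw, hz⟩

lemma near_one {a b : E → X} {inc : X → Finset E} {x y : X} :
    y ∈ near a b inc 1 x ↔ y = x ∨ y ∈ nbr a b inc x := by
  simp [near]

lemma near_comm {a b : E → X} {inc : X → Finset E} (hinc : IsInc a b inc) {n : ℕ} {x y : X}
    (h : y ∈ near a b inc n x) : x ∈ near a b inc n y := by
  induction n generalizing y with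
  | zero => simp only [near, mem_singleton] at h ⊢; exact h.symm
  | succ n ih =>
    rw [near, mem_biUnion] at h
    obtain ⟨w, hw, hy⟩ := h
    have h1 : w ∈ near a b inc 1 y := by
      rw [near_one]
      rcases mem_insert.1 hy with h | h
      · exact Or.inl h.symm
      · exact Or.inr ((nbr_comm hinc).1 h)
    have := near_trans h1 (ih hw)
    rwa [add_comm] at this

lemma near_mono {a b : E → X} {inc : X → Finset E} {n m : ℕ} (h : n ≤ m) (x : X) :
    near a b inc n x ⊆ near a b inc m x := by
  intro y hy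
  obtain ⟨k, rfl⟩ := Nat.exists_eq_add_of_le h
  exact near_trans hy (near_self k y)

lemma walks_near {a b : E → X} {inc : X → Finset E} (n : ℕ) (x : X) {l : List X}
    (hl : l ∈ walks a b inc n x) {y : X} (hy : y ∈ l) : y ∈ near a b inc n x := by
  induction n generalizing x l with
  | zero => simp only [walks, mem_singleton] at hl; rw [hl] at hy; simpa [near] using hy
  | succ n ih =>
    rw [walks, mem_biUnion] at hl
    obtain ⟨w, hw, hl1⟩ := hl
    rw [mem_image] at hl1
    obtain ⟨l1, hl1, rfl⟩ := hl1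
    rcases List.mem_cons.1 hy with rfl | hy
    · exact near_self _ _
    · have h1 : w ∈ near a b inc 1 x := near_one.2 (Or.inr hw)
      have := near_trans h1 (ih w hl1 hy)
      rwa [add_comm] at this

lemma cov_near {a b : E → X} {inc : X → Finset E} {m : ℕ} {x : X} {B : Finset X}
    (hB : B ∈ cov a b inc m x) : B ⊆ near a b inc (2 * m) x := by
  obtain ⟨l, hl, rfl⟩ := mem_image.1 hB
  intro y hy
  exact walks_near _ x hl (List.mem_toFinset.1 hy)

variable [DecidableEq E]

/-- the bonds at the sites at distance at most `n` -/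
def loc (a b : E → X) (inc : X → Finset E) (n : ℕ) (x : X) : Finset E :=
  (near a b inc n x).biUnion inc

lemma loc_mono {a b : E → X} {inc : X → Finset E} {n m : ℕ} (h : n ≤ m) (x : X) :
    loc a b inc n x ⊆ loc a b inc m x := biUnion_subset_biUnion_of_subset_left _ (near_mono h x)

lemma loc_sub {a b : E → X} {inc : X → Finset E} {n m : ℕ} {x y : X}
    (h : y ∈ near a b inc m x) : loc a b inc n y ⊆ loc a b inc (m + n) x := by
  intro e he
  obtain ⟨z, hz, he⟩ := mem_biUnion.1 he
  exact mem_biUnion.2 ⟨z, near_trans h hz, he⟩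

lemma disjoint_loc {a b : E → X} {inc : X → Finset E} (hinc : IsInc a b inc) {n m : ℕ} {x y : X}
    (h : y ∉ near a b inc (n + 1 + m) x) : Disjoint (loc a b inc n x) (loc a b inc m y) := by
  rw [disjoint_left]
  intro e he he'
  apply h
  obtain ⟨z, hz, he⟩ := mem_biUnion.1 he
  obtain ⟨w, hw, he'⟩ := mem_biUnion.1 he'
  have hw' := near_comm hinc hw
  refine near_trans (near_trans hz ?_) hw'
  rw [near_one, mem_nbr hinc]
  rw [hinc] at he he'
  rcases he with he | he <;> rcases he' with he' | he'
  · exact Or.inl (he'.symm.trans he)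
  · exact Or.inr ⟨e, Or.inl ⟨he, he'⟩⟩
  · exact Or.inr ⟨e, Or.inr ⟨he', he⟩⟩
  · exact Or.inl (he'.symm.trans he)

end Pool.Agent.H995.EA
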