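import Pool.Agent.H995.EA.Prob

/-!
# Incongruent ground states on graphs which are a forest with a few additional bonds
-/

set_option autoImplicit false

namespace Pool.Agent.H995.EA

open Finset MeasureTheory ProbabilityTheory Real Filter
open scoped ENNReal

variable {X E : Type} [DecidableEq X] [DecidableEq E]

/-- some bad connected set with `m + 1` sites contains `x` -/
def Lev (a b : E → X) (inc : X → Finset E) (T F : Set E) (x : X) (m : ℕ) : Set (E → ℝ) :=
  {J | ∃ A ∈ cov a b inc m x, A.card = m + 1 ∧ Bad a b inc T F J A}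

lemma measurableSet_lev (a b : E → X) (inc : X → Finset E) (T F : Set E) (x : X) (m : ℕ) :
    MeasurableSet (Lev a b inc T F x m) := by
  have h : Lev a b inc T F x m =
      ⋃ A ∈ (cov a b inc m x).filter fun A => A.card = m + 1, {J | Bad a b inc T F J A} := by
    ext J
    simp only [Lev, Set.mem_ofPred_eq, Set.mem_iUnion, mem_filter, exists_prop]
    constructor
    · rintro ⟨A, h1, h2, h3⟩; exact ⟨A, ⟨h1, h2⟩, h3⟩
    · rintro ⟨A, ⟨h1, h2⟩, h3⟩; exact ⟨A, h1, h2, h3⟩
  rw [h]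
  exact Finset.measurableSet_biUnion _ fun A _ => measurableSet_bad a b inc T F A

lemma dep_lev {a b : E → X} {inc : X → Finset E} {T F : Set E} {x : X} {m : ℕ} {S : Finset E}
    (hS : loc a b inc (2 * m) x ⊆ S) : Dep S (Lev a b inc T F x m) := by
  intro J J' h
  simp only [Lev, Set.mem_ofPred_eq]
  refine exists_congr fun A => and_congr_right fun hA => and_congr_right fun _ => ?_
  apply dep_bad
  intro e he
  apply h
  apply hS
  obtain ⟨y, hy, he⟩ := mem_biUnion.1 (mem_filter.1 he).1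
  exact mem_biUnion.2 ⟨y, cov_near hA hy, he⟩

lemma prob_lev {a b : E → X} {inc : X → Finset E} (hinc : IsInc a b inc) {T F : Set E}
    {c Δ D : ℕ} (hD : ∀ x, (inc x).card ≤ D) (hD1 : 1 ≤ D)
    (hchild : ∀ x, c ≤ {e | e ∈ T ∧ a e = x}.ncard)
    (hpar : ∀ e ∈ T, ∀ e' ∈ T, b e = b e' → e = e')
    (hother : ∀ x, {e | e ∉ T ∧ (a e = x ∨ b e = x)}.ncard ≤ Δ)
    (hF : ∀ x, ∀ e ∈ F, ∀ e' ∈ F, e ∈ inc x → e' ∈ inc x → e = e') (μ : Measure ℝ)
    [IsProbabilityMeasure μ] {θ : ℝ} (hθ : 0 < θ)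
    (hint : Integrable (fun x => exp (θ * |x|)) μ)
    (hnum : (D : ℝ) ^ 2 * (∫ x, exp (θ * |x|) ∂μ) ^ (Δ + 1) *
      (∫ x, exp (-(θ * |x|)) ∂μ) ^ (c - 2) ≤ 1 / 5) (x : X) (m : ℕ) :
    (Measure.infinitePi fun _ : E => μ).real (Lev a b inc T F x m) ≤ (1 / 5) ^ (m + 1) := by
  set u : ℝ := ∫ x, exp (θ * |x|) ∂μ with hu
  set v : ℝ := ∫ x, exp (-(θ * |x|)) ∂μ with hv
  have hu1 : 1 ≤ u := by
    have h1 : ∫ _x : ℝ, (1 : ℝ) ∂μ ≤ u := by
      refine integral_mono (integrable_const _) hint fun y => ?_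
      exact one_le_exp (mul_nonneg hθ.le (abs_nonneg y))
    simpa using h1
  have hv0 : 0 ≤ v := integral_nonneg fun y => (exp_pos _).le
  have hv1 : v ≤ 1 := by
    have h1 : v ≤ ∫ _x : ℝ, (1 : ℝ) ∂μ := by
      refine integral_mono (integrable_neg_exp μ hθ) (integrable_const _) fun y => ?_
      show exp (-(θ * |y|)) ≤ 1
      rw [exp_le_one_iff]
      have := mul_nonneg hθ.le (abs_nonneg y)
      linarith
    simpa using h1
  have hone : ∀ A : Finset X, A.card = m + 1 →
      (Measure.infinitePi fun _ : E => μ).real {J | Bad a b inc T F J A} ≤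
        (u ^ (Δ + 1) * v ^ (c - 2)) ^ (m + 1) := by
    intro A hA
    refine (prob_bad a b inc T F μ hθ hint A).trans ?_
    rw [← hu, ← hv, mul_pow, ← pow_mul, ← pow_mul, mul_comm]
    have h1 := card_tb (F := F) hinc hchild hpar hF A
    have h2 := card_ob (F := F) hinc hother hF A
    rw [hA] at h1 h2
    have h3 : (c - 2) * (m + 1) ≤ (tb a b inc T F A).card := by
      rw [Nat.sub_mul]
      omega
    exact mul_le_mul (pow_le_pow_right₀ hu1 h2) (pow_le_pow_of_le_one hv0 hv1 h3)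
      (pow_nonneg hv0 _) (pow_nonneg (by linarith) _)
  have hsub : Lev a b inc T F x m ⊆
      ⋃ A ∈ (cov a b inc m x).filter fun A => A.card = m + 1, {J | Bad a b inc T F J A} := by
    rintro J ⟨A, h1, h2, h3⟩
    exact Set.mem_biUnion (mem_filter.2 ⟨h1, h2⟩) h3
  have hq : 0 ≤ u ^ (Δ + 1) * v ^ (c - 2) := mul_nonneg (pow_nonneg (by linarith) _)
    (pow_nonneg hv0 _)
  have hD1' : (1 : ℝ) ≤ D := by exact_mod_cast hD1
  calc (Measure.infinitePi fun _ : E => μ).real (Lev a b inc T F x m)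
      ≤ (Measure.infinitePi fun _ : E => μ).real
        (⋃ A ∈ (cov a b inc m x).filter fun A => A.card = m + 1, {J | Bad a b inc T F J A}) :=
        measureReal_mono hsub (measure_ne_top _ _)
    _ ≤ ∑ A ∈ (cov a b inc m x).filter fun A => A.card = m + 1,
        (Measure.infinitePi fun _ : E => μ).real {J | Bad a b inc T F J A} :=
        measureReal_biUnion_finset_le _ _
    _ ≤ ∑ _A ∈ (cov a b inc m x).filter fun A => A.card = m + 1,
        (u ^ (Δ + 1) * v ^ (c - 2)) ^ (m + 1) :=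
        sum_le_sum fun A hA => hone A (mem_filter.1 hA).2
    _ = ((cov a b inc m x).filter fun A => A.card = m + 1).card *
        (u ^ (Δ + 1) * v ^ (c - 2)) ^ (m + 1) := by rw [sum_const, nsmul_eq_mul]
    _ ≤ (D : ℝ) ^ (2 * (m + 1)) * (u ^ (Δ + 1) * v ^ (c - 2)) ^ (m + 1) := by
        refine mul_le_mul_of_nonneg_right ?_ (pow_nonneg hq _)
        have h1 : ((cov a b inc m x).filter fun A => A.card = m + 1).card ≤ D ^ (2 * m) :=
          (card_filter_le _ _).trans (card_cov hD m x)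
        have h2 : (((cov a b inc m x).filter fun A => A.card = m + 1).card : ℝ) ≤
            (D : ℝ) ^ (2 * m) := by exact_mod_cast h1
        exact h2.trans (pow_le_pow_right₀ hD1' (by omega))
    _ = ((D : ℝ) ^ 2 * u ^ (Δ + 1) * v ^ (c - 2)) ^ (m + 1) := by
        rw [pow_mul, ← mul_pow, ← mul_assoc]
    _ ≤ (1 / 5) ^ (m + 1) := by
        refine pow_le_pow_left₀ ?_ hnum _
        rw [mul_assoc]
        exact mul_nonneg (pow_nonneg (by linarith) _) hq

omit [DecidableEq E] in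
/-- a sequence of sites which are far from each other -/
lemma exists_far [Infinite X] (a b : E → X) (inc : X → Finset E) :
    ∃ (x : ℕ → X) (n : ℕ → ℕ), (∀ i j, i < j → n i < n j) ∧
      ∀ i j, i < j → x j ∉ near a b inc (4 * n j + 1) (x i) := by
  classical
  obtain ⟨f, -, hf⟩ := exists_seq_of_forall_finset_exists (fun _ : X × ℕ => True)
    (fun p q => p.2 < q.2 ∧ q.1 ∉ near a b inc (4 * q.2 + 1) p.1) (by
      intro s _
      let N := s.sup (fun p => p.2) + 1
      obtain ⟨y, hy⟩ := Infinite.exists_notMem_finset (s.biUnion fun p => near a b inc (4 * N + 1) p.1)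
      refine ⟨(y, N), trivial, fun p hp => ⟨?_, ?_⟩⟩
      · have : p.2 ≤ s.sup (fun p => p.2) := le_sup (f := fun p : X × ℕ => p.2) hp
        simp only [N]
        omega
      · intro hcon
        exact hy (mem_biUnion.2 ⟨p, hp, hcon⟩))
  exact ⟨fun i => (f i).1, fun i => (f i).2, fun i j h => (hf i j h).1, fun i j h => (hf i j h).2⟩

lemma sum_fifth (n : ℕ) : ∑ m ∈ range n, ((1 : ℝ) / 5) ^ (m + 1) ≤ 1 / 4 := by
  have h : ∑ m ∈ range n, ((1 : ℝ) / 5) ^ (m + 1) = (1 - (1 / 5) ^ n) / 4 := by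
    induction n with
    | zero => simp
    | succ n ih => rw [sum_range_succ, ih]; ring
  rw [h]
  have : (0 : ℝ) ≤ (1 / 5) ^ n := by positivity
  linarith

/-- **Main theorem.** -/
theorem main [Infinite X] [Countable E] (a b : E → X) (T : Set E) (dep : X → ℕ) (c Δ D : ℕ)
    (hfin : ∀ x, {e | a e = x ∨ b e = x}.Finite)
    (hdeg : ∀ x, {e | a e = x ∨ b e = x}.ncard ≤ D)
    (hc : 3 ≤ c)
    (hchild : ∀ x, c ≤ {e | e ∈ T ∧ a e = x}.ncard)
    (hother : ∀ x, {e | e ∉ T ∧ (a e = x ∨ b e = x)}.ncard ≤ Δ)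
    (hpar : ∀ e ∈ T, ∀ e' ∈ T, b e = b e' → e = e')
    (hdep : ∀ e ∈ T, dep (b e) = dep (a e) + 1)
    (μ : Measure ℝ) [IsProbabilityMeasure μ] (hatom : ∀ x : ℝ, μ {x} = 0) (θ : ℝ) (hθ : 0 < θ)
    (hint : Integrable (fun x => exp (θ * |x|)) μ)
    (hnum : (D : ℝ) ^ 2 * (∫ x, exp (θ * |x|) ∂μ) ^ (Δ + 1) *
      (∫ x, exp (-(θ * |x|)) ∂μ) ^ (c - 2) ≤ 1 / 5) :
    ∀ᵐ J ∂(Measure.infinitePi fun _ : E => μ), ∃ Φ : Set ℕ → X → ℝ,
      (∀ S, IsGroundState a b J (Φ S)) ∧ ∀ S S', S ≠ S' → Φ S ≠ Φ S' ∧ Φ S ≠ -Φ S' := by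
  classical
  let P : Measure (E → ℝ) := Measure.infinitePi fun _ : E => μ
  let inc : X → Finset E := fun x => (hfin x).toFinset
  have hinc : IsInc a b inc := fun x e => by
    simp only [inc, Set.Finite.mem_toFinset, Set.mem_ofPred_eq]
  have hD : ∀ x, (inc x).card ≤ D := by
    intro x
    refine le_trans (le_of_eq ?_) (hdeg x)
    rw [Set.ncard_eq_toFinset_card _ (hfin x)]
  obtain ⟨x, n, hn, hx⟩ := exists_far a b inc
  have hfx : ∀ i, ∃ e, e ∈ T ∧ a e = x i := by
    intro i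
    have h := hchild (x i)
    have h0 : ({e | e ∈ T ∧ a e = x i}).ncard ≠ 0 := by omega
    exact Set.nonempty_of_ncard_ne_zero h0
  choose f hfT hfa using hfx
  have hni : ∀ i, i ≤ n i := by
    intro i
    induction i with
    | zero => omega
    | succ i ih => have := hn i (i + 1) (Nat.lt_succ_self i); omega
  let L : ℕ → Finset E := fun i => loc a b inc (2 * n i + 1) (x i)
  have hL' : ∀ i j, i < j → Disjoint (L i) (L j) := by
    intro i j hij
    refine disjoint_loc hinc fun hcon => hx i j hij (near_mono ?_ _ hcon)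
    have := hn i j hij
    omega
  have hL : ∀ i j, i ≠ j → Disjoint (L i) (L j) := by
    intro i j hij
    rcases lt_or_gt_of_ne hij with h | h
    · exact hL' i j h
    · exact (hL' j i h).symm
  -- the matching
  let F : Set E := Set.range f
  have hend : ∀ i z, f i ∈ inc z → z ∈ near a b inc 1 (x i) := by
    intro i z hz
    rw [near_one, mem_nbr hinc]
    rw [hinc, hfa] at hz
    rcases hz with h | h
    · exact Or.inl h.symm
    · exact Or.inr ⟨f i, Or.inl ⟨hfa i, h⟩⟩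
  have hfL : ∀ i, f i ∈ L i := fun i => mem_biUnion.2 ⟨x i, near_self _ _,
    (hinc _ _).2 (Or.inl (hfa i))⟩
  have hshare : ∀ i j z, f i ∈ inc z → f j ∈ inc z → i = j := by
    intro i j z hi hj
    by_contra hij
    have h1 : f i ∈ L j := mem_biUnion.2 ⟨z, near_mono (by omega) _ (hend j z hj), hi⟩
    exact disjoint_left.1 (hL i j hij) (hfL i) h1
  have hF : ∀ z, ∀ e ∈ F, ∀ e' ∈ F, e ∈ inc z → e' ∈ inc z → e = e' := by
    rintro z _ ⟨i, rfl⟩ _ ⟨j, rfl⟩ hi hj
    rw [hshare i j z hi hj]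
  have hfinj : ∀ i j, f i = f j → i = j := by
    intro i j hij
    exact hshare i j (a (f i)) ((hinc _ _).2 (Or.inl rfl)) ((hinc _ _).2 (Or.inl (by rw [hij])))
  -- estimates
  have hD1 : 1 ≤ D := by
    have h1 := hchild (x 0)
    have h2 : ({e | e ∈ T ∧ a e = x 0}).ncard ≤ ({e | a e = x 0 ∨ b e = x 0}).ncard :=
      Set.ncard_le_ncard (fun e he => Or.inl he.2) (hfin _)
    have h3 := hdeg (x 0)
    omega
  have hlev : ∀ z m, P.real (Lev a b inc T F z m) ≤ (1 / 5) ^ (m + 1) := fun z m =>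
    prob_lev hinc hD hD1 hchild hpar hother hF μ hθ hint hnum z m
  let ρ : ℝ≥0∞ := ENNReal.ofReal (1 / 5)
  have hlev' : ∀ z m, P (Lev a b inc T F z m) ≤ ρ ^ (m + 1) := by
    intro z m
    rw [← ofReal_measureReal, ← ENNReal.ofReal_pow (by norm_num)]
    exact ENNReal.ofReal_le_ofReal (hlev z m)
  -- local events
  let LB : ℕ → Set (E → ℝ) := fun i => ⋃ m ∈ range (n i + 1),
    (Lev a b inc T F (a (f i)) m ∪ Lev a b inc T F (b (f i)) m)
  have hLBm : ∀ i, MeasurableSet (LB i) := fun i => Finset.measurableSet_biUnion _ fun m _ =>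
    (measurableSet_lev a b inc T F _ m).union (measurableSet_lev a b inc T F _ m)
  have hLBp : ∀ i, P.real (LB i) ≤ 1 / 2 := by
    intro i
    calc P.real (LB i) ≤ ∑ m ∈ range (n i + 1),
          P.real (Lev a b inc T F (a (f i)) m ∪ Lev a b inc T F (b (f i)) m) :=
          measureReal_biUnion_finset_le _ _
      _ ≤ ∑ m ∈ range (n i + 1), 2 * ((1 : ℝ) / 5) ^ (m + 1) := by
          refine sum_le_sum fun m _ => (measureReal_union_le _ _).trans ?_
          rw [two_mul]
          exact add_le_add (hlev _ m) (hlev _ m)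
      _ = 2 * ∑ m ∈ range (n i + 1), ((1 : ℝ) / 5) ^ (m + 1) := by rw [mul_sum]
      _ ≤ 2 * (1 / 4) := by linarith [sum_fifth (n i + 1)]
      _ = 1 / 2 := by norm_num
  have hbx : ∀ i, b (f i) ∈ near a b inc 1 (x i) := fun i =>
    hend i _ ((hinc _ _).2 (Or.inr rfl))
  have hLBd : ∀ i, Dep (L i) (LB i)ᶜ := by
    intro i J J' h
    simp only [LB, Set.mem_compl_iff, Set.mem_iUnion, Set.mem_union, exists_prop, mem_range]
    refine not_congr (exists_congr fun m => and_congr_right fun hm => or_congr ?_ ?_)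
    · refine dep_lev (x := a (f i)) ?_ J J' h
      rw [hfa]
      exact loc_mono (by omega) _
    · refine dep_lev (x := b (f i)) ?_ J J' h
      exact (loc_sub (hbx i)).trans (loc_mono (by omega) _)
  have hind : iIndepSet (fun i => (LB i)ᶜ) P :=
    indep_seq μ hL (fun i => (hLBm i).compl) hLBd
  have hhalf : ∀ i, ENNReal.ofReal (1 / 2) ≤ P (LB i)ᶜ := by
    intro i
    rw [← ofReal_measureReal (μ := P), probReal_compl_eq_one_sub (hLBm i)]
    exact ENNReal.ofReal_le_ofReal (by linarith [hLBp i])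
  have hsum : ∑' i, P (LB i)ᶜ = ∞ := by
    have h1 : ∑' _i : ℕ, ENNReal.ofReal (1 / 2) = ∞ :=
      ENNReal.tsum_const_eq_top_of_ne_zero (by simp)
    exact top_unique (h1 ▸ ENNReal.tsum_le_tsum hhalf)
  have hBC2 := measure_limsup_eq_one (fun i => (hLBm i).compl) hind hsum
  have hae2 : ∀ᵐ J ∂P, ∃ᶠ i in atTop, J ∈ (LB i)ᶜ := by
    have h1 : (limsup (fun i => (LB i)ᶜ) atTop) ∈ ae P :=
      (mem_ae_iff_prob_eq_one (MeasurableSet.measurableSet_limsup fun i => (hLBm i).compl)).2 hBC2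
    filter_upwards [h1] with J hJ
    exact mem_limsup_iff_frequently_mem.1 hJ
  -- large bad sets
  let FB : ℕ → Set (E → ℝ) := fun i => ⋃ m : ℕ,
    (Lev a b inc T F (a (f i)) (m + n i + 1) ∪ Lev a b inc T F (b (f i)) (m + n i + 1))
  have hρ1 : ρ < 1 := by
    simp only [ρ]
    rw [ENNReal.ofReal_lt_one]
    norm_num
  have hgeo : ∑' m : ℕ, ρ ^ m ≠ ∞ := by
    rw [ENNReal.tsum_geometric]
    exact ENNReal.inv_ne_top.2 (tsub_pos_of_lt hρ1).ne'
  have hFBp : ∀ i, P (FB i) ≤ ρ ^ i * (2 * ∑' m : ℕ, ρ ^ m) := by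
    intro i
    calc P (FB i) ≤ ∑' m : ℕ, P (Lev a b inc T F (a (f i)) (m + n i + 1) ∪
          Lev a b inc T F (b (f i)) (m + n i + 1)) := measure_iUnion_le _
      _ ≤ ∑' m : ℕ, ρ ^ i * (2 * ρ ^ m) := by
          refine ENNReal.tsum_le_tsum fun m => (measure_union_le _ _).trans ?_
          have h1 : ρ ^ (m + n i + 1 + 1) ≤ ρ ^ (i + m) :=
            pow_le_pow_right_of_le_one' hρ1.le (by have := hni i; omega)
          calc P (Lev a b inc T F (a (f i)) (m + n i + 1)) +
                P (Lev a b inc T F (b (f i)) (m + n i + 1))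
              ≤ ρ ^ (i + m) + ρ ^ (i + m) := add_le_add ((hlev' _ _).trans h1)
                ((hlev' _ _).trans h1)
            _ = ρ ^ i * (2 * ρ ^ m) := by rw [pow_add]; ring
      _ = ρ ^ i * (2 * ∑' m : ℕ, ρ ^ m) := by rw [ENNReal.tsum_mul_left, ENNReal.tsum_mul_left]
  have hFBs : ∑' i, P (FB i) ≠ ∞ := by
    refine ne_top_of_le_ne_top ?_ (ENNReal.tsum_le_tsum hFBp)
    rw [ENNReal.tsum_mul_right]
    exact ENNReal.mul_ne_top hgeo (ENNReal.mul_ne_top (by simp) hgeo)
  have hae1 : ∀ᵐ J ∂P, ∀ᶠ i in atTop, J ∉ FB i := ae_eventually_notMem hFBs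
  -- conclusion
  filter_upwards [hae1, hae2, generic μ hatom] with J h1 h2 hgen
  have hfreq := h2.and_eventually h1
  obtain ⟨φ, hφ, hφg⟩ := extraction_of_frequently_atTop hfreq
  let Good : X → Prop := fun z => ∀ m, J ∉ Lev a b inc T F z m
  have hgood : ∀ i, Good (a (f (φ i))) ∧ Good (b (f (φ i))) := by
    intro i
    obtain ⟨g1, g2⟩ := hφg i
    have key : ∀ m, J ∉ Lev a b inc T F (a (f (φ i))) m ∪ Lev a b inc T F (b (f (φ i))) m := by
      intro m hm
      by_cases hmn : m < n (φ i) + 1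
      · exact g1 (Set.mem_biUnion (mem_range.2 hmn) hm)
      · apply g2
        simp only [FB, Set.mem_iUnion]
        refine ⟨m - (n (φ i) + 1), ?_⟩
        have : m - (n (φ i) + 1) + n (φ i) + 1 = m := by omega
        rw [this]
        exact hm
    exact ⟨fun m hm => key m (Or.inl hm), fun m hm => key m (Or.inr hm)⟩
  let sg : ℝ → ℝ := fun t => if 0 ≤ t then 1 else -1
  have hsg : ∀ t, sg t = 1 ∨ sg t = -1 := by
    intro t; simp only [sg]; split_ifs <;> simp
  have hsga : ∀ t, t * sg t = |t| := by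
    intro t
    simp only [sg]
    split_ifs with h
    · rw [abs_of_nonneg h, mul_one]
    · rw [abs_of_neg (not_le.1 h)]; ring
  let s : Set ℕ → E → ℝ := fun S e => (if ∃ i ∈ S, e = f (φ i) then -1 else 1) * sg (J e)
  have hs : ∀ S e, s S e = 1 ∨ s S e = -1 := by
    intro S e
    simp only [s]
    rcases hsg (J e) with h | h <;> rw [h] <;> split_ifs <;> norm_num
  have hbd : ∀ A : Finset X, A.Nonempty → (bd a b inc A).Nonempty := by
    intro A hA
    have h1 := card_tb (F := F) hinc hchild hpar hF A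
    have h2 : 0 < A.card := hA.card_pos
    have h3 : 0 < (tb a b inc T F A).card := by
      have : 3 * A.card ≤ c * A.card := Nat.mul_le_mul_right _ hc
      omega
    obtain ⟨e, he⟩ := card_pos.1 h3
    exact ⟨e, (mem_tb.1 he).1⟩
  have hex : ∀ S : Set ℕ, ∃ σ : X → ℝ, IsGroundState a b J σ ∧
      ∀ i, σ (a (f (φ i))) * σ (b (f (φ i))) = s S (f (φ i)) := by
    intro S
    obtain ⟨η, hη, hηT⟩ := exists_reference a b T dep hpar hdep (s S) (hs S)
    have hsat : ∀ e ∈ T, e ∉ F → J e * (η (a e) * η (b e)) = |J e| := by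
      intro e he heF
      rw [hηT e he]
      have h1 : s S e = sg (J e) := by
        simp only [s]
        rw [if_neg, one_mul]
        rintro ⟨i, -, rfl⟩
        exact heF ⟨_, rfl⟩
      have h2 : η (a e) * η (a e) = 1 := by
        rcases hη (a e) with h | h <;> rw [h] <;> norm_num
      rw [h1, ← hsga]
      calc J e * (η (a e) * (sg (J e) * η (a e))) = J e * sg (J e) * (η (a e) * η (a e)) := by ring
        _ = J e * sg (J e) := by rw [h2, mul_one]
    obtain ⟨σ, hσ, hσg⟩ := exists_ground hinc hη hgen hbd Good (fun z hz m A hA hAc =>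
      pos_of_not_bad (fun hbad => hz m ⟨A, hA, hAc, hbad⟩) hη hsat)
    refine ⟨σ, hσ, fun i => ?_⟩
    rw [hσg _ (hgood i).1, hσg _ (hgood i).2, hηT _ (hfT _)]
    have h2 : η (a (f (φ i))) * η (a (f (φ i))) = 1 := by
      rcases hη (a (f (φ i))) with h | h <;> rw [h] <;> norm_num
    calc η (a (f (φ i))) * (s S (f (φ i)) * η (a (f (φ i)))) =
        s S (f (φ i)) * (η (a (f (φ i))) * η (a (f (φ i)))) := by ring
      _ = s S (f (φ i)) := by rw [h2, mul_one]
  choose Φ hΦ hΦs using hex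
  have hsS : ∀ (S : Set ℕ) i, s S (f (φ i)) = (if i ∈ S then -1 else 1) * sg (J (f (φ i))) := by
    intro S i
    simp only [s]
    congr 1
    by_cases hi : i ∈ S
    · rw [if_pos hi, if_pos ⟨i, hi, rfl⟩]
    · rw [if_neg hi, if_neg]
      rintro ⟨j, hj, hij⟩
      exact hi (hφ.injective (hfinj _ _ hij) ▸ hj)
  have hkey : ∀ S S' : Set ℕ, (∀ i, s S (f (φ i)) = s S' (f (φ i))) → S = S' := by
    intro S S' h
    ext i
    have h1 := h i
    rw [hsS, hsS] at h1
    by_cases hi : i ∈ S <;> by_cases hi' : i ∈ S'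
    · simp [hi, hi']
    · rw [if_pos hi, if_neg hi'] at h1
      rcases hsg (J (f (φ i))) with h2 | h2 <;> rw [h2] at h1 <;> norm_num at h1
    · rw [if_neg hi, if_pos hi'] at h1
      rcases hsg (J (f (φ i))) with h2 | h2 <;> rw [h2] at h1 <;> norm_num at h1
    · simp [hi, hi']
  refine ⟨Φ, hΦ, fun S S' hne => ⟨fun h => hne (hkey S S' fun i => ?_),
    fun h => hne (hkey S S' fun i => ?_)⟩⟩
  · rw [← hΦs, ← hΦs, h]
  · rw [← hΦs, ← hΦs, h]
    simp

end Pool.Agent.H995.EA
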