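import Pool.Agent.H995.EA.Count

/-!
# Probability estimates for bad sets
-/

set_option autoImplicit false

namespace Pool.Agent.H995.EA

open Finset MeasureTheory ProbabilityTheory Real
open scoped ENNReal

variable {X E : Type} [DecidableEq X] [DecidableEq E]

/-! ### Genericity -/

omit [DecidableEq X] in
lemma generic_one (μ : Measure ℝ) [IsProbabilityMeasure μ] (hatom : ∀ x : ℝ, μ {x} = 0)
    (B S : Finset E) (hB : B.Nonempty) :
    ∀ᵐ J ∂(Measure.infinitePi fun _ : E => μ),
      ∑ e ∈ B, J e * (if e ∈ S then (1 : ℝ) else -1) ≠ 0 := by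
  classical
  obtain ⟨e0, he0⟩ := hB
  let t : E → ℝ := fun e => if e ∈ S then (1 : ℝ) else -1
  have ht : ∀ e, t e ≠ 0 := by intro e; simp only [t]; split_ifs <;> norm_num
  let P : Measure (E → ℝ) := Measure.infinitePi fun _ : E => μ
  let f : E → (E → ℝ) → ℝ := fun e J => J e * t e
  have hmeas : ∀ e, Measurable (f e) := fun e => by simp only [f]; fun_prop
  have hind : iIndepFun f P :=
    iIndepFun_infinitePi (P := fun _ : E => μ) (X := fun e x => x * t e) (fun e => by fun_prop)
  have hsum : IndepFun (∑ e ∈ B.erase e0, f e) (f e0) P :=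
    hind.indepFun_finsetSum_of_notMem hmeas (notMem_erase e0 B)
  have hYm : Measurable (∑ e ∈ B.erase e0, f e) := by
    have h := Finset.measurable_sum (B.erase e0) fun e (_ : e ∈ B.erase e0) => hmeas e
    have h' : (∑ e ∈ B.erase e0, f e) = fun J => ∑ e ∈ B.erase e0, f e J := by
      funext J
      rw [Finset.sum_apply]
    rw [h']
    exact h
  have hlaw := hsum.map_prod_eq_prod_map_map hYm.aemeasurable (hmeas e0).aemeasurable
  have hset : MeasurableSet {p : ℝ × ℝ | p.1 + p.2 = 0} :=
    measurableSet_eq_fun (by fun_prop) (by fun_prop)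
  have hnull : (P.map fun J => ((∑ e ∈ B.erase e0, f e) J, f e0 J)) {p : ℝ × ℝ | p.1 + p.2 = 0} = 0 := by
    rw [hlaw, Measure.measure_prod_null hset]
    refine Filter.Eventually.of_forall fun y => ?_
    have h1 : (Prod.mk y ⁻¹' {p : ℝ × ℝ | p.1 + p.2 = 0}) = {-y} := by
      ext z
      simp only [Set.mem_preimage, Set.mem_ofPred_eq, Set.mem_singleton_iff]
      constructor <;> intro h <;> linarith
    show (P.map (f e0)) (Prod.mk y ⁻¹' {p : ℝ × ℝ | p.1 + p.2 = 0}) = 0
    rw [h1, Measure.map_apply (hmeas e0) (measurableSet_singleton _)]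
    have h2 : f e0 ⁻¹' {-y} = (fun J : E → ℝ => J e0) ⁻¹' ({-y / t e0} : Set ℝ) := by
      ext J
      simp only [f, Set.mem_preimage, Set.mem_singleton_iff]
      rw [eq_div_iff (ht e0)]
    rw [h2]
    have h3 := (measurePreserving_eval_infinitePi (fun _ : E => μ) e0).measure_preimage
      (measurableSet_singleton (-y / t e0)).nullMeasurableSet
    exact h3.trans (hatom _)
  rw [Measure.map_apply (hYm.prodMk (hmeas e0)) hset] at hnull
  rw [ae_iff]
  refine measure_mono_null ?_ hnull
  intro J hJ
  simp only [Set.mem_ofPred_eq, not_not] at hJ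
  simp only [Set.mem_preimage, Set.mem_ofPred_eq, Finset.sum_apply, f]
  rw [← hJ, ← Finset.sum_erase_add B _ he0]

omit [DecidableEq X] in
lemma generic [Countable E] (μ : Measure ℝ) [IsProbabilityMeasure μ] (hatom : ∀ x : ℝ, μ {x} = 0) :
    ∀ᵐ J ∂(Measure.infinitePi fun _ : E => μ),
      ∀ B : Finset E, B.Nonempty → ∀ s : E → ℝ, (∀ e, s e = 1 ∨ s e = -1) →
        ∑ e ∈ B, J e * s e ≠ 0 := by
  have h : ∀ᵐ J ∂(Measure.infinitePi fun _ : E => μ), ∀ B S : Finset E, B.Nonempty →
      ∑ e ∈ B, J e * (if e ∈ S then (1 : ℝ) else -1) ≠ 0 := by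
    rw [ae_all_iff]
    intro B
    rw [ae_all_iff]
    intro S
    by_cases hB : B.Nonempty
    · filter_upwards [generic_one μ hatom B S hB] with J hJ _
      exact hJ
    · exact Filter.Eventually.of_forall fun J h => absurd h hB
  filter_upwards [h] with J hJ B hB s hs
  classical
  have := hJ B (B.filter fun e => s e = 1) hB
  have h2 : ∑ e ∈ B, J e * s e =
      ∑ e ∈ B, J e * (if e ∈ B.filter fun e => s e = 1 then (1 : ℝ) else -1) := by
    refine sum_congr rfl fun e he => ?_
    by_cases h1 : s e = 1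
    · rw [if_pos (mem_filter.2 ⟨he, h1⟩), h1]
    · have hn : e ∉ B.filter fun e => s e = 1 := fun h => h1 (mem_filter.1 h).2
      rw [if_neg hn, (hs e).resolve_left h1]
  rw [h2]
  exact this

/-! ### Independence -/

/-- the event `G` depends only on the couplings of the bonds in `S` -/
def Dep (S : Finset E) (G : Set (E → ℝ)) : Prop :=
  ∀ J J' : E → ℝ, (∀ e ∈ S, J e = J' e) → (J ∈ G ↔ J' ∈ G)

omit [DecidableEq X] in
lemma indep_two (μ : Measure ℝ) [IsProbabilityMeasure μ] {S T : Finset E} (hST : Disjoint S T)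
    {G H : Set (E → ℝ)} (hG : MeasurableSet G) (hH : MeasurableSet H) (dG : Dep S G)
    (dH : Dep T H) :
    (Measure.infinitePi fun _ : E => μ) (G ∩ H) =
      (Measure.infinitePi fun _ : E => μ) G * (Measure.infinitePi fun _ : E => μ) H := by
  classical
  let P : Measure (E → ℝ) := Measure.infinitePi fun _ : E => μ
  have hind : iIndepFun (fun (e : E) (J : E → ℝ) => J e) P :=
    iIndepFun_infinitePi (P := fun _ : E => μ) (X := fun _ x => x) (fun _ => measurable_id)
  have h2 := hind.indepFun_finset S T hST (fun e => by fun_prop)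
  let ext : (U : Finset E) → ((U → ℝ) → (E → ℝ)) := fun U y e => if h : e ∈ U then y ⟨e, h⟩ else 0
  have hext : ∀ U, Measurable (ext U) := by
    intro U
    rw [measurable_pi_iff]
    intro e
    simp only [ext]
    by_cases h : e ∈ U
    · simp only [h, dif_pos]
      fun_prop
    · simp only [h, dif_neg, not_false_eq_true]
      fun_prop
  have h3 := h2.measure_inter_preimage_eq_mul _ _ (hext S hG) (hext T hH)
  have key : ∀ (U : Finset E) (K : Set (E → ℝ)), Dep U K →
      (fun (J : E → ℝ) (i : U) => J i) ⁻¹' (ext U ⁻¹' K) = K := by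
    intro U K hK
    ext J
    simp only [Set.mem_preimage]
    apply hK
    intro e he
    simp only [ext, dif_pos he]
  rw [key S G dG, key T H dH] at h3
  exact h3

omit [DecidableEq X] in
lemma indep_seq (μ : Measure ℝ) [IsProbabilityMeasure μ] {S : ℕ → Finset E}
    (hS : ∀ i j, i ≠ j → Disjoint (S i) (S j)) {G : ℕ → Set (E → ℝ)}
    (hG : ∀ i, MeasurableSet (G i)) (dG : ∀ i, Dep (S i) (G i)) :
    iIndepSet G (Measure.infinitePi fun _ : E => μ) := by
  classical
  rw [iIndepSet_iff_meas_biInter hG]
  intro s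
  induction s using Finset.induction_on with
  | empty => simp
  | insert i s hi ih =>
    rw [prod_insert hi, ← ih, Finset.set_biInter_insert]
    refine indep_two μ (T := s.biUnion S) ?_ (hG i) ?_ (dG i) ?_
    · rw [disjoint_biUnion_right]
      intro j hj
      exact hS i j (fun h => hi (h ▸ hj))
    · exact Finset.measurableSet_biInter s fun j _ => hG j
    · intro J J' h
      simp only [Set.mem_iInter]
      refine forall₂_congr fun j hj => ?_
      exact dG j J J' fun e he => h e (mem_biUnion.2 ⟨j, hj, he⟩)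

/-! ### Bad sets -/

lemma measurableSet_bad (a b : E → X) (inc : X → Finset E) (T F : Set E) (A : Finset X) :
    MeasurableSet {J : E → ℝ | Bad a b inc T F J A} := by
  unfold Bad
  exact measurableSet_le (by fun_prop) (by fun_prop)

lemma dep_bad {a b : E → X} {inc : X → Finset E} {T F : Set E} {A : Finset X} {J J' : E → ℝ}
    (h : ∀ e ∈ bd a b inc A, J e = J' e) : Bad a b inc T F J A ↔ Bad a b inc T F J' A := by
  unfold Bad
  have h1 : ∑ e ∈ tb a b inc T F A, |J e| = ∑ e ∈ tb a b inc T F A, |J' e| :=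
    sum_congr rfl fun e he => by rw [h e (mem_tb.1 he).1]
  have h2 : ∑ e ∈ bd a b inc A \ tb a b inc T F A, |J e| =
      ∑ e ∈ bd a b inc A \ tb a b inc T F A, |J' e| :=
    sum_congr rfl fun e he => by rw [h e (mem_sdiff.1 he).1]
  rw [h1, h2]

lemma integrable_neg_exp (μ : Measure ℝ) [IsProbabilityMeasure μ] {θ : ℝ} (hθ : 0 < θ) :
    Integrable (fun x => exp (-(θ * |x|))) μ := by
  refine Integrable.of_bound (C := 1) (by fun_prop) (Filter.Eventually.of_forall fun x => ?_)
  rw [Real.norm_eq_abs, abs_of_pos (exp_pos _), exp_le_one_iff]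
  have := abs_nonneg x
  nlinarith

/-- Chernoff bound for a set to be bad -/
lemma prob_bad (a b : E → X) (inc : X → Finset E) (T F : Set E) (μ : Measure ℝ)
    [IsProbabilityMeasure μ] {θ : ℝ} (hθ : 0 < θ)
    (hint : Integrable (fun x => exp (θ * |x|)) μ) (A : Finset X) :
    (Measure.infinitePi fun _ : E => μ).real {J | Bad a b inc T F J A} ≤
      (∫ x, exp (-(θ * |x|)) ∂μ) ^ (tb a b inc T F A).card *
        (∫ x, exp (θ * |x|) ∂μ) ^ (bd a b inc A \ tb a b inc T F A).card := by
  classical
  let P : Measure (E → ℝ) := Measure.infinitePi fun _ : E => μ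
  let g : E → ℝ → ℝ := fun e x => if e ∈ tb a b inc T F A then -|x| else |x|
  have hg : ∀ e, Measurable (g e) := by
    intro e
    simp only [g]
    by_cases h : e ∈ tb a b inc T F A
    · simp only [h, if_true]; fun_prop
    · simp only [h, if_false]; fun_prop
  let Y : E → (E → ℝ) → ℝ := fun e J => g e (J e)
  have hYm : ∀ e, Measurable (Y e) := fun e => (hg e).comp (measurable_pi_apply e)
  have hind : iIndepFun Y P := iIndepFun_infinitePi (P := fun _ : E => μ) (X := g) hg
  have hmp := fun e : E => measurePreserving_eval_infinitePi (fun _ : E => μ) e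
  have hgint : ∀ e, Integrable (fun x => exp (θ * g e x)) μ := by
    intro e
    simp only [g]
    by_cases h : e ∈ tb a b inc T F A
    · simp only [h, if_true, mul_neg]
      exact integrable_neg_exp μ hθ
    · simp only [h, if_false]
      exact hint
  have hYint : ∀ e ∈ bd a b inc A, Integrable (fun J => exp (θ * Y e J)) P := by
    intro e _
    exact (hmp e).integrable_comp_of_integrable (hgint e)
  have hmgf : ∀ e, mgf (Y e) P θ =
      if e ∈ tb a b inc T F A then ∫ x, exp (-(θ * |x|)) ∂μ else ∫ x, exp (θ * |x|) ∂μ := by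
    intro e
    unfold mgf
    have h1 : ∫ J, exp (θ * Y e J) ∂P = ∫ x, exp (θ * g e x) ∂μ := by
      have h2 : AEStronglyMeasurable (fun x => exp (θ * g e x))
          ((Measure.infinitePi fun _ : E => μ).map (Function.eval e)) := by
        rw [(hmp e).map_eq]
        exact (hgint e).aestronglyMeasurable
      have h3 := integral_map (hmp e).measurable.aemeasurable h2
      rw [(hmp e).map_eq] at h3
      exact h3.symm
    rw [h1]
    simp only [g]
    by_cases h : e ∈ tb a b inc T F A
    · simp only [h, if_true, mul_neg]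
    · simp only [h, if_false]
  have hsub : tb a b inc T F A ⊆ bd a b inc A := fun e he => (mem_tb.1 he).1
  have hset : {J : E → ℝ | Bad a b inc T F J A} ⊆
      {J : E → ℝ | (0 : ℝ) ≤ (∑ e ∈ bd a b inc A, Y e) J} := by
    intro J hJ
    have hJ' : ∑ e ∈ tb a b inc T F A, |J e| ≤ ∑ e ∈ bd a b inc A \ tb a b inc T F A, |J e| := hJ
    simp only [Set.mem_ofPred_eq, Finset.sum_apply]
    rw [← sum_sdiff hsub]
    have h1 : ∑ e ∈ tb a b inc T F A, Y e J = -∑ e ∈ tb a b inc T F A, |J e| := by
      rw [← sum_neg_distrib]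
      exact sum_congr rfl fun e he => by simp only [Y, g, if_pos he]
    have h2 : ∑ e ∈ bd a b inc A \ tb a b inc T F A, Y e J =
        ∑ e ∈ bd a b inc A \ tb a b inc T F A, |J e| :=
      sum_congr rfl fun e he => by simp only [Y, g, if_neg (mem_sdiff.1 he).2]
    rw [h1, h2]
    linarith
  have hch := measure_ge_le_exp_mul_mgf (μ := P) (X := ∑ e ∈ bd a b inc A, Y e) (t := θ) 0 hθ.le
    (hind.integrable_exp_mul_sum hYm hYint)
  rw [hind.mgf_sum hYm, mul_zero, exp_zero, one_mul] at hch
  have hprod : ∏ e ∈ bd a b inc A, mgf (Y e) P θ =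
      (∫ x, exp (-(θ * |x|)) ∂μ) ^ (tb a b inc T F A).card *
        (∫ x, exp (θ * |x|) ∂μ) ^ (bd a b inc A \ tb a b inc T F A).card := by
    rw [← prod_sdiff hsub, mul_comm]
    congr 1
    · exact prod_eq_pow_card fun e he => by rw [hmgf, if_pos he]
    · exact prod_eq_pow_card fun e he => by rw [hmgf, if_neg (mem_sdiff.1 he).2]
  rw [hprod] at hch
  exact (measureReal_mono hset (measure_ne_top _ _)).trans hch

end Pool.Agent.H995.EA
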