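import Pool.Agent.H995.EA.Main

/-!
# Products of graphs with regular trees
-/

set_option autoImplicit false

namespace Pool.Agent.H995.EA

open Finset MeasureTheory ProbabilityTheory Real Filter

/-- The vertices of the `k`-regular tree: the root `none` has the `k` children `some (j, [])`, and
`some (j, l)` has the `k - 1` children `some (j, i :: l)`. -/
abbrev TreeVertex (k : ℕ) : Type := Option (Fin k × List (Fin (k - 1)))

/-- The parent of a vertex different from the root. -/
def parent {k : ℕ} : Fin k × List (Fin (k - 1)) → TreeVertex k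
  | (_, []) => none
  | (j, _ :: l) => some (j, l)

/-- The bonds of the product of the graph with vertex set `V` and edge set `I` with the `k`-regular
tree: the bond `inl (i, w)` is the copy of the edge `i` over the vertex `w` of the tree, and the bond
`inr (x, n)` is the copy of the edge between the vertex `n` of the tree and its parent over `x`. -/
abbrev ProductBond (V I : Type) (k : ℕ) : Type :=
  (I × TreeVertex k) ⊕ (V × (Fin k × List (Fin (k - 1))))

/-- The first end of a bond of the product; the edge `i` of the graph joins `s i` and `t i`. -/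
def left {V I : Type} {k : ℕ} (s : I → V) : ProductBond V I k → V × TreeVertex k
  | .inl (i, w) => (s i, w)
  | .inr (x, n) => (x, parent n)

/-- The second end of a bond of the product; the edge `i` of the graph joins `s i` and `t i`. -/
def right {V I : Type} {k : ℕ} (t : I → V) : ProductBond V I k → V × TreeVertex k
  | .inl (i, w) => (t i, w)
  | .inr (x, n) => (x, some n)

/-- the children of a vertex of the tree -/
def ch {k : ℕ} : TreeVertex k → Finset (Fin k × List (Fin (k - 1)))
  | none => univ.image fun j => (j, [])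
  | some (j, l) => univ.image fun i => (j, i :: l)

lemma mem_ch {k : ℕ} {w : TreeVertex k} {n : Fin k × List (Fin (k - 1))} :
    n ∈ ch w ↔ parent n = w := by
  obtain ⟨j, l⟩ := n
  rcases w with _ | ⟨j', l'⟩
  · simp only [ch, mem_image, mem_univ, true_and, Prod.mk.injEq]
    cases l with
    | nil => simp [parent]
    | cons i l => simp [parent]
  · simp only [ch, mem_image, mem_univ, true_and, Prod.mk.injEq]
    cases l with
    | nil => simp [parent]
    | cons i l =>
      simp only [parent, Option.some.injEq, Prod.mk.injEq, List.cons.injEq]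
      constructor
      · rintro ⟨i', h1, -, h2⟩
        exact ⟨h1.symm, h2.symm⟩
      · rintro ⟨h1, h2⟩
        exact ⟨i, h1.symm, rfl, h2.symm⟩

lemma card_ch {k : ℕ} (w : TreeVertex k) : k - 1 ≤ (ch w).card ∧ (ch w).card ≤ k := by
  rcases w with _ | ⟨j', l'⟩
  · have h : (ch (none : TreeVertex k)).card = k := by
      simp only [ch]
      rw [card_image_of_injective]
      · simp
      · intro j j' h
        exact (Prod.mk.inj h).1
    omega
  · have h : (ch (some (j', l') : TreeVertex k)).card = k - 1 := by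
      simp only [ch]
      rw [card_image_of_injective]
      · simp
      · intro i i' h
        exact (List.cons.inj (Prod.mk.inj h).2).1
    omega

/-- the depth of a vertex -/
def depth {k : ℕ} : TreeVertex k → ℕ
  | none => 0
  | some (_, l) => l.length + 1

lemma depth_parent {k : ℕ} (n : Fin k × List (Fin (k - 1))) :
    depth (some n) = depth (parent n) + 1 := by
  obtain ⟨j, l⟩ := n
  cases l with
  | nil => simp [depth, parent]
  | cons i l => simp [depth, parent]

/-- The ground states are uncountable and pairwise incongruent. -/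
def ManyGroundStates {X E : Type} (a b : E → X) (μ : Measure ℝ) : Prop :=
  ∀ᵐ J ∂(Measure.infinitePi fun _ : E => μ), ∃ Φ : Set ℕ → X → ℝ,
    (∀ S, IsGroundState a b J (Φ S)) ∧ ∀ S S', S ≠ S' → Φ S ≠ Φ S' ∧ Φ S ≠ -Φ S'

lemma product_many {V I : Type} [Countable V] [Countable I] [Nonempty V] (s t : I → V) (Δ k : ℕ)
    (hk : 4 ≤ k) (hs : ∀ x, {i | s i = x ∨ t i = x}.Finite)
    (hd : ∀ x, {i | s i = x ∨ t i = x}.ncard ≤ Δ) (μ : Measure ℝ) [IsProbabilityMeasure μ]
    (hatom : ∀ x : ℝ, μ {x} = 0) (θ : ℝ) (hθ : 0 < θ)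
    (hint : Integrable (fun x => exp (θ * |x|)) μ)
    (hnum : ((k + 1 + Δ : ℕ) : ℝ) ^ 2 * (∫ x, exp (θ * |x|) ∂μ) ^ (Δ + 1) *
      (∫ x, exp (-(θ * |x|)) ∂μ) ^ (k - 3) ≤ 1 / 5) :
    ManyGroundStates (left s : ProductBond V I k → V × TreeVertex k) (right t) μ := by
  classical
  have hk1 : 0 < k := by omega
  have hk2 : 0 < k - 1 := by omega
  have : Infinite (V × TreeVertex k) := by
    obtain ⟨x0⟩ := (inferInstance : Nonempty V)
    refine Infinite.of_injective (fun m : ℕ =>
      ((x0, some (⟨0, hk1⟩, List.replicate m ⟨0, hk2⟩)) : V × TreeVertex k)) ?_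
    intro m m' h
    simp only [Prod.mk.injEq, Option.some.injEq, true_and] at h
    have := congrArg List.length h
    simpa using this
  -- the bonds at a site
  have hsub : ∀ z : V × TreeVertex k, {e : ProductBond V I k | left s e = z ∨ right t e = z} ⊆
      Sum.inl '' ((fun i => (i, z.2)) '' {i | s i = z.1 ∨ t i = z.1}) ∪
        Sum.inr '' ((fun n => (z.1, n)) '' (↑(ch z.2) ∪ {n | some n = z.2})) := by
    rintro ⟨x, w⟩ e he
    rcases e with ⟨i, w'⟩ | ⟨x', n⟩
    · left
      simp only [left, right, Set.mem_ofPred_eq, Prod.mk.injEq] at he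
      refine ⟨(i, w'), ⟨i, ?_, ?_⟩, rfl⟩
      · rcases he with h | h
        · exact Or.inl h.1
        · exact Or.inr h.1
      · rcases he with h | h <;> rw [h.2]
    · right
      simp only [left, right, Set.mem_ofPred_eq, Prod.mk.injEq] at he
      refine ⟨(x', n), ⟨n, ?_, ?_⟩, rfl⟩
      · rcases he with h | h
        · exact Or.inl (mem_coe.2 (mem_ch.2 h.2))
        · exact Or.inr h.2
      · rcases he with h | h <;> rw [h.1]
  have hone : ∀ w : TreeVertex k, {n | some n = w}.Subsingleton := by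
    intro w n hn n' hn'
    exact Option.some.inj ((show some n = w from hn).trans (show some n' = w from hn').symm)
  have hfin1 : ∀ z : V × TreeVertex k,
      (Sum.inl '' ((fun i => (i, z.2)) '' {i | s i = z.1 ∨ t i = z.1}) ∪
        Sum.inr '' ((fun n => (z.1, n)) '' (↑(ch z.2) ∪ {n | some n = z.2})) :
          Set (ProductBond V I k)).Finite := fun z =>
    (((hs z.1).image _).image _).union
      ((((ch z.2).finite_toSet.union (hone z.2).finite).image _).image _)
  have hcard1 : ∀ z : V × TreeVertex k,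
      (Sum.inl '' ((fun i => (i, z.2)) '' {i | s i = z.1 ∨ t i = z.1}) ∪
        Sum.inr '' ((fun n => (z.1, n)) '' (↑(ch z.2) ∪ {n | some n = z.2})) :
          Set (ProductBond V I k)).ncard ≤ k + 1 + Δ := by
    intro z
    refine (Set.ncard_union_le _ _).trans ?_
    have h1 : (Sum.inl '' ((fun i => (i, z.2)) '' {i | s i = z.1 ∨ t i = z.1}) :
        Set (ProductBond V I k)).ncard ≤ Δ :=
      (Set.ncard_image_le ((hs z.1).image _)).trans ((Set.ncard_image_le (hs z.1)).trans (hd z.1))
    have hf2 : (↑(ch z.2) ∪ {n | some n = z.2} : Set (Fin k × List (Fin (k - 1)))).Finite :=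
      (ch z.2).finite_toSet.union (hone z.2).finite
    have h2 : (Sum.inr '' ((fun n => (z.1, n)) '' (↑(ch z.2) ∪ {n | some n = z.2})) :
        Set (ProductBond V I k)).ncard ≤ k + 1 := by
      refine (Set.ncard_image_le (hf2.image _)).trans ((Set.ncard_image_le hf2).trans ?_)
      refine (Set.ncard_union_le _ _).trans ?_
      rw [Set.ncard_coe_finset]
      have h3 := (card_ch z.2).2
      have h4 : ({n | some n = z.2} : Set (Fin k × List (Fin (k - 1)))).ncard ≤ 1 :=
        (Set.ncard_le_one (hone z.2).finite).2 fun n hn n' hn' => hone z.2 hn hn'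
      omega
    omega
  refine main (left s) (right t) (Set.range Sum.inr) (fun z => depth z.2) (k - 1) Δ (k + 1 + Δ)
    (fun z => (hfin1 z).subset (hsub z))
    (fun z => (Set.ncard_le_ncard (hsub z) (hfin1 z)).trans (hcard1 z)) (by omega) ?_ ?_ ?_ ?_ μ
    hatom θ hθ hint ?_
  · rintro ⟨x, w⟩
    refine (card_ch w).1.trans ?_
    have h1 : ((ch w).image fun n => (Sum.inr (x, n) : ProductBond V I k)).card = (ch w).card := by
      rw [card_image_of_injective]
      intro n n' h
      exact (Prod.mk.inj (Sum.inr.inj h)).2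
    rw [← h1, ← Set.ncard_coe_finset]
    refine Set.ncard_le_ncard ?_ ((hfin1 (x, w)).subset
      (fun e he => hsub (x, w) (Or.inl he.2)))
    intro e he
    rw [mem_coe, mem_image] at he
    obtain ⟨n, hn, rfl⟩ := he
    refine ⟨⟨_, rfl⟩, ?_⟩
    simp only [left]
    rw [mem_ch.1 hn]
  · rintro ⟨x, w⟩
    have hsub2 : {e : ProductBond V I k | e ∉ Set.range Sum.inr ∧
        (left s e = (x, w) ∨ right t e = (x, w))} ⊆
        Sum.inl '' ((fun i => (i, w)) '' {i | s i = x ∨ t i = x}) := by
      rintro e ⟨he1, he2⟩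
      rcases e with ⟨i, w'⟩ | ⟨x', n⟩
      · simp only [left, right, Prod.mk.injEq] at he2
        refine ⟨(i, w'), ⟨i, ?_, ?_⟩, rfl⟩
        · rcases he2 with h | h
          · exact Or.inl h.1
          · exact Or.inr h.1
        · rcases he2 with h | h <;> rw [h.2]
      · exact absurd ⟨_, rfl⟩ he1
    exact (Set.ncard_le_ncard hsub2 (((hs x).image _).image _)).trans
      ((Set.ncard_image_le ((hs x).image _)).trans ((Set.ncard_image_le (hs x)).trans (hd x)))
  · rintro _ ⟨⟨x, n⟩, rfl⟩ _ ⟨⟨x', n'⟩, rfl⟩ h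
    simp only [right, Prod.mk.injEq, Option.some.injEq] at h
    rw [h.1, h.2]
  · rintro _ ⟨⟨x, n⟩, rfl⟩
    simp only [left, right]
    exact depth_parent n
  · have : k - 1 - 2 = k - 3 := by omega
    rw [this]
    exact hnum

/-! ### The numerical condition -/

lemma integral_neg_exp_lt_one (μ : Measure ℝ) [IsProbabilityMeasure μ] (h0 : μ {0} = 0) {θ : ℝ}
    (hθ : 0 < θ) : ∫ x, exp (-(θ * |x|)) ∂μ < 1 := by
  have hi := integrable_neg_exp μ hθ
  have h1 : 0 < ∫ x, (1 - exp (-(θ * |x|))) ∂μ := by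
    rw [integral_pos_iff_support_of_nonneg]
    · have hsupp : ({0}ᶜ : Set ℝ) ⊆ Function.support fun x : ℝ => 1 - exp (-(θ * |x|)) := by
        intro x hx
        have hx' : x ≠ 0 := hx
        have : exp (-(θ * |x|)) < 1 := by
          rw [exp_lt_one_iff]
          have := mul_pos hθ (abs_pos.2 hx')
          linarith
        simp only [Function.mem_support]
        linarith
      have h2 : μ ({0}ᶜ : Set ℝ) = 1 := by
        rw [prob_compl_eq_one_iff (measurableSet_singleton _)]
        exact h0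
      have h3 := measure_mono (μ := μ) hsupp
      rw [h2] at h3
      exact lt_of_lt_of_le one_pos h3
    · intro x
      show (0 : ℝ) ≤ 1 - exp (-(θ * |x|))
      have : exp (-(θ * |x|)) ≤ 1 := by
        rw [exp_le_one_iff]
        have := mul_nonneg hθ.le (abs_nonneg x)
        linarith
      linarith
    · exact (integrable_const _).sub hi
  rw [integral_sub (integrable_const _) hi] at h1
  simp only [integral_const, probReal_univ, smul_eq_mul, mul_one] at h1
  linarith

lemma exists_k (u v : ℝ) (hv0 : 0 < v) (hv1 : v < 1) (Δ : ℕ) :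
    ∃ k₀ : ℕ, ∀ k ≥ k₀, 4 ≤ k ∧ ((k + 1 + Δ : ℕ) : ℝ) ^ 2 * u ^ (Δ + 1) * v ^ (k - 3) ≤ 1 / 5 := by
  have h1 : Tendsto (fun n : ℕ => (n : ℝ) ^ 2 * v ^ n) atTop (nhds 0) :=
    tendsto_pow_const_mul_const_pow_of_abs_lt_one 2 (by rw [abs_of_pos hv0]; exact hv1)
  have h2 : Tendsto (fun n : ℕ => (n : ℝ) ^ 2 * v ^ n * (u ^ (Δ + 1) / v ^ (Δ + 4))) atTop
      (nhds 0) := by
    have := h1.mul_const (u ^ (Δ + 1) / v ^ (Δ + 4))
    rwa [zero_mul] at this
  have h3 : Tendsto (fun k : ℕ => ((k + 1 + Δ : ℕ) : ℝ) ^ 2 * v ^ (k + 1 + Δ) *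
      (u ^ (Δ + 1) / v ^ (Δ + 4))) atTop (nhds 0) := by
    have h4 := (tendsto_add_atTop_iff_nat (f := fun n : ℕ => (n : ℝ) ^ 2 * v ^ n *
      (u ^ (Δ + 1) / v ^ (Δ + 4))) (1 + Δ)).2 h2
    refine h4.congr fun k => ?_
    rw [add_assoc]
  have h5 := h3.eventually (gt_mem_nhds (show (0 : ℝ) < 1 / 5 by norm_num))
  obtain ⟨k₀, hk₀⟩ := (h5.and (eventually_ge_atTop 4)).exists_forall_of_atTop
  refine ⟨k₀, fun k hk => ⟨(hk₀ k hk).2, ?_⟩⟩
  have h6 := (hk₀ k hk).1
  have h7 := (hk₀ k hk).2
  have hv : v ^ (k + 1 + Δ) / v ^ (Δ + 4) = v ^ (k - 3) := by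
    rw [div_eq_iff (pow_ne_zero _ hv0.ne'), ← pow_add]
    congr 1
    omega
  have h8 : ((k + 1 + Δ : ℕ) : ℝ) ^ 2 * v ^ (k + 1 + Δ) * (u ^ (Δ + 1) / v ^ (Δ + 4)) =
      ((k + 1 + Δ : ℕ) : ℝ) ^ 2 * u ^ (Δ + 1) * v ^ (k - 3) := by
    rw [← hv]
    ring
  rw [h8] at h6
  exact h6.le

/-- **Products with regular trees of large degree.** -/
theorem product_theorem (μ : Measure ℝ) [IsProbabilityMeasure μ] (hatom : ∀ x : ℝ, μ {x} = 0)
    (θ : ℝ) (hθ : 0 < θ) (hint : Integrable (fun x => exp (θ * |x|)) μ) (Δ : ℕ) :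
    ∃ k₀ : ℕ, ∀ k ≥ k₀, ∀ (V I : Type) [Countable V] [Countable I] [Nonempty V] (s t : I → V),
      (∀ x, {i | s i = x ∨ t i = x}.Finite ∧ {i | s i = x ∨ t i = x}.ncard ≤ Δ) →
      ManyGroundStates (left s : ProductBond V I k → V × TreeVertex k) (right t) μ := by
  have hv0 : 0 < ∫ x, exp (-(θ * |x|)) ∂μ := integral_exp_pos (integrable_neg_exp μ hθ)
  obtain ⟨k₀, hk₀⟩ := exists_k (∫ x, exp (θ * |x|) ∂μ) _ hv0
    (integral_neg_exp_lt_one μ (hatom 0) hθ) Δ
  refine ⟨k₀, fun k hk V I _ _ _ s t h => ?_⟩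
  exact product_many s t Δ k (hk₀ k hk).1 (fun x => (h x).1) (fun x => (h x).2) μ hatom θ hθ hint
    (hk₀ k hk).2

end Pool.Agent.H995.EA
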