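import Pool.Agent.H995.EA.Tree

/-!
# The lattices `ℤ^d × T_k`: connectedness and laws for explicit `k`
-/

set_option autoImplicit false

namespace Pool.Agent.H995.EA

open Finset MeasureTheory ProbabilityTheory Real Filter

/-- any two sites are joined by a path -/
def Connected {X E : Type} (a b : E → X) : Prop :=
  ∀ x y, Relation.ReflTransGen (fun x y => ∃ e, (a e = x ∧ b e = y) ∨ (a e = y ∧ b e = x)) x y

lemma conn_symm {X E : Type} {a b : E → X} {x y : X}
    (h : Relation.ReflTransGen (fun x y => ∃ e, (a e = x ∧ b e = y) ∨ (a e = y ∧ b e = x)) x y) :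
    Relation.ReflTransGen (fun x y => ∃ e, (a e = x ∧ b e = y) ∨ (a e = y ∧ b e = x)) y x := by
  induction h with
  | refl => exact Relation.ReflTransGen.refl
  | tail _ h ih =>
    obtain ⟨e, he⟩ := h
    exact Relation.ReflTransGen.head ⟨e, he.symm⟩ ih

/-- the second end of a bond of `ℤ^d` -/
abbrev zright {d : ℕ} (e : (Fin d → ℤ) × Fin d) : Fin d → ℤ := e.1 + Pi.single e.2 1

lemma zd_connected (d : ℕ) : Connected (fun e : (Fin d → ℤ) × Fin d => e.1) zright := by
  let R : (Fin d → ℤ) → (Fin d → ℤ) → Prop := Relation.ReflTransGen (fun x y =>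
    ∃ e : (Fin d → ℤ) × Fin d, (e.1 = x ∧ zright e = y) ∨ (e.1 = y ∧ zright e = x))
  let H : AddSubgroup (Fin d → ℤ) :=
    { carrier := {v | ∀ x, R x (x + v)}
      zero_mem' := fun x => by rw [add_zero]
      add_mem' := by
        intro v w hv hw x
        rw [← add_assoc]
        exact (hv x).trans (hw (x + v))
      neg_mem' := by
        intro v hv x
        have := hv (x + -v)
        rw [neg_add_cancel_right] at this
        exact conn_symm this }
  intro x y
  have h1 : ∀ i : Fin d, (Pi.single i 1 : Fin d → ℤ) ∈ H := by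
    intro i z
    exact Relation.ReflTransGen.single ⟨(z, i), Or.inl ⟨rfl, rfl⟩⟩
  have h2 : y - x ∈ H := by
    have h3 : y - x = ∑ i, (y - x) i • (Pi.single i 1 : Fin d → ℤ) := by
      funext j
      simp [Finset.sum_apply, Pi.single_apply]
    rw [h3]
    exact sum_mem fun i _ => zsmul_mem (h1 i) _
  have h4 := h2 x
  rwa [add_sub_cancel] at h4

lemma product_connected {V I : Type} (s t : I → V) (h : Connected s t) (k : ℕ) :
    Connected (left s : ProductBond V I k → V × TreeVertex k) (right t) := by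
  have h1 : ∀ (x : V) (w : TreeVertex k), Relation.ReflTransGen (fun z z' =>
      ∃ e : ProductBond V I k, (left s e = z ∧ right t e = z') ∨ (left s e = z' ∧ right t e = z))
      (x, none) (x, w) := by
    rintro x (_ | ⟨j, l⟩)
    · exact Relation.ReflTransGen.refl
    · induction l with
      | nil => exact Relation.ReflTransGen.single ⟨Sum.inr (x, (j, [])), Or.inl ⟨rfl, rfl⟩⟩
      | cons i l ih => exact ih.tail ⟨Sum.inr (x, (j, i :: l)), Or.inl ⟨rfl, rfl⟩⟩
  have h2 : ∀ x y : V, Relation.ReflTransGen (fun z z' =>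
      ∃ e : ProductBond V I k, (left s e = z ∧ right t e = z') ∨ (left s e = z' ∧ right t e = z))
      (x, none) (y, none) := by
    intro x y
    have := h x y
    induction this with
    | refl => exact Relation.ReflTransGen.refl
    | tail _ hst ih =>
      obtain ⟨i, hi⟩ := hst
      refine ih.tail ⟨Sum.inl (i, none), ?_⟩
      rcases hi with ⟨h3, h4⟩ | ⟨h3, h4⟩
      · exact Or.inl ⟨by simp [left, h3], by simp [right, h4]⟩
      · exact Or.inr ⟨by simp [left, h3], by simp [right, h4]⟩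
  rintro ⟨x, w⟩ ⟨y, w'⟩
  exact (conn_symm (h1 x w)).trans ((h2 x y).trans (h1 y w'))

lemma zd_degree (d : ℕ) (x : Fin d → ℤ) :
    {e : (Fin d → ℤ) × Fin d | e.1 = x ∨ zright e = x}.Finite ∧
      {e : (Fin d → ℤ) × Fin d | e.1 = x ∨ zright e = x}.ncard ≤ 2 * d := by
  classical
  let S : Finset ((Fin d → ℤ) × Fin d) :=
    (univ.image fun i : Fin d => (x, i)) ∪ (univ.image fun i : Fin d => (x - Pi.single i 1, i))
  have hsub : {e : (Fin d → ℤ) × Fin d | e.1 = x ∨ zright e = x} ⊆ (S : Set _) := by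
    rintro ⟨y, i⟩ h
    simp only [Set.mem_ofPred_eq, zright] at h
    rw [mem_coe, mem_union, mem_image, mem_image]
    rcases h with h | h
    · exact Or.inl ⟨i, mem_univ _, by rw [h]⟩
    · exact Or.inr ⟨i, mem_univ _, by rw [← h, add_sub_cancel_right]⟩
  refine ⟨S.finite_toSet.subset hsub, ?_⟩
  refine (Set.ncard_le_ncard hsub S.finite_toSet).trans ?_
  rw [Set.ncard_coe_finset]
  refine (card_union_le _ _).trans ?_
  have h1 := card_image_le (s := (univ : Finset (Fin d))) (f := fun i : Fin d => (x, i))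
  have h2 := card_image_le (s := (univ : Finset (Fin d)))
    (f := fun i : Fin d => (x - Pi.single i 1, i))
  rw [card_univ, Fintype.card_fin] at h1 h2
  omega

/-- The uniform distribution on `L ≤ |x| ≤ L + 1/2`. -/
noncomputable def annulus (L : ℝ) : Measure ℝ := volume.restrict {x | L ≤ |x| ∧ |x| ≤ L + 1 / 2}

lemma annulus_set (L : ℝ) (hL : 0 < L) : {x : ℝ | L ≤ |x| ∧ |x| ≤ L + 1 / 2} =
    Set.Icc L (L + 1 / 2) ∪ Set.Icc (-(L + 1 / 2)) (-L) := by
  ext x
  simp only [Set.mem_ofPred_eq, Set.mem_union, Set.mem_Icc]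
  constructor
  · rintro ⟨h1, h2⟩
    rcases le_or_gt 0 x with h | h
    · rw [abs_of_nonneg h] at h1 h2
      exact Or.inl ⟨h1, h2⟩
    · rw [abs_of_neg h] at h1 h2
      exact Or.inr ⟨by linarith, by linarith⟩
  · rintro (⟨h1, h2⟩ | ⟨h1, h2⟩)
    · rw [abs_of_pos (by linarith)]
      exact ⟨h1, h2⟩
    · rw [abs_of_neg (by linarith)]
      exact ⟨by linarith, by linarith⟩

lemma annulus_prob (L : ℝ) (hL : 0 < L) : IsProbabilityMeasure (annulus L) := by
  refine ⟨?_⟩
  unfold annulus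
  rw [Measure.restrict_apply MeasurableSet.univ, Set.univ_inter, annulus_set L hL,
    measure_union ?_ measurableSet_Icc, Real.volume_Icc, Real.volume_Icc,
    ← ENNReal.ofReal_add (by linarith) (by linarith)]
  · have : L + 1 / 2 - L + (-L - -(L + 1 / 2)) = 1 := by ring
    rw [this, ENNReal.ofReal_one]
  · rw [Set.disjoint_left]
    rintro x ⟨h1, _⟩ ⟨_, h2⟩
    linarith

lemma annulus_meas (L : ℝ) : MeasurableSet {x : ℝ | L ≤ |x| ∧ |x| ≤ L + 1 / 2} := by
  have h1 : MeasurableSet {x : ℝ | L ≤ |x|} := measurableSet_le measurable_const (by fun_prop)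
  have h2 : MeasurableSet {x : ℝ | |x| ≤ L + 1 / 2} :=
    measurableSet_le (by fun_prop) measurable_const
  exact h1.inter h2

lemma annulus_atom (L x : ℝ) : annulus L {x} = 0 := by
  unfold annulus
  rw [Measure.restrict_apply (measurableSet_singleton _)]
  exact measure_mono_null Set.inter_subset_left Real.volume_singleton

lemma annulus_symm (L : ℝ) : (annulus L).map (fun x => -x) = annulus L := by
  unfold annulus
  have h1 : (volume : Measure ℝ).map (fun x => -x) = volume := Measure.map_neg_eq_self volume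
  have h2 := Measure.restrict_map (μ := (volume : Measure ℝ)) (f := fun x : ℝ => -x)
    measurable_neg (annulus_meas L)
  rw [h1] at h2
  have h3 : (fun x : ℝ => -x) ⁻¹' {x | L ≤ |x| ∧ |x| ≤ L + 1 / 2} =
      {x | L ≤ |x| ∧ |x| ≤ L + 1 / 2} := by
    ext x
    simp [abs_neg]
  rw [h3] at h2
  exact h2.symm

lemma annulus_ae (L : ℝ) : ∀ᵐ x ∂(annulus L), L ≤ |x| ∧ |x| ≤ L + 1 / 2 := by
  unfold annulus
  exact ae_restrict_mem (annulus_meas L)

lemma annulus_int (L : ℝ) (hL : 0 < L) {θ : ℝ} (hθ : 0 < θ) :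
    Integrable (fun x => exp (θ * |x|)) (annulus L) := by
  have := annulus_prob L hL
  refine Integrable.of_bound (C := exp (θ * (L + 1 / 2))) (by fun_prop) ?_
  filter_upwards [annulus_ae L] with x hx
  rw [Real.norm_eq_abs, abs_of_pos (exp_pos _)]
  exact exp_le_exp.2 (mul_le_mul_of_nonneg_left hx.2 hθ.le)

/-- **Explicit degree of the tree.** -/
theorem explicit_degree (d k : ℕ) (hk : 2 * d + 5 ≤ k) (V I : Type) [Countable V] [Countable I]
    [Nonempty V] (s t : I → V)
    (h : ∀ x, {i | s i = x ∨ t i = x}.Finite ∧ {i | s i = x ∨ t i = x}.ncard ≤ 2 * d) :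
    ManyGroundStates (left s : ProductBond V I k → V × TreeVertex k) (right t)
      (annulus (2 * d + 1)) := by
  set L : ℝ := 2 * d + 1 with hL
  have hL0 : 0 < L := by positivity
  have := annulus_prob L hL0
  -- choice of `θ`
  obtain ⟨N, hN⟩ : ∃ N : ℕ, ((k + 1 + 2 * d : ℕ) : ℝ) ^ 2 * exp (-((N : ℝ) * (1 / 2))) ≤ 1 / 5 ∧
      1 ≤ N := by
    have h1 : Tendsto (fun N : ℕ => ((k + 1 + 2 * d : ℕ) : ℝ) ^ 2 * exp (-((N : ℝ) * (1 / 2))))
        atTop (nhds (((k + 1 + 2 * d : ℕ) : ℝ) ^ 2 * 0)) := by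
      refine Tendsto.const_mul _ ?_
      refine Real.tendsto_exp_neg_atTop_nhds_zero.comp ?_
      exact Tendsto.atTop_mul_const (by norm_num) tendsto_natCast_atTop_atTop
    rw [mul_zero] at h1
    have h2 := h1.eventually (gt_mem_nhds (show (0 : ℝ) < 1 / 5 by norm_num))
    obtain ⟨N, hN⟩ := (h2.and (eventually_ge_atTop 1)).exists
    exact ⟨N, hN.1.le, hN.2⟩
  have hθ : (0 : ℝ) < N := by exact_mod_cast hN.2
  refine product_many s t (2 * d) k (by omega) (fun x => (h x).1) (fun x => (h x).2) (annulus L)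
    (annulus_atom L) N hθ (annulus_int L hL0 hθ) ?_
  have hu : ∫ x, exp (N * |x|) ∂(annulus L) ≤ exp (N * (L + 1 / 2)) := by
    have h1 : ∫ x, exp (N * |x|) ∂(annulus L) ≤ ∫ _x, exp (N * (L + 1 / 2)) ∂(annulus L) := by
      refine integral_mono_ae (annulus_int L hL0 hθ) (integrable_const _) ?_
      filter_upwards [annulus_ae L] with x hx
      exact exp_le_exp.2 (mul_le_mul_of_nonneg_left hx.2 hθ.le)
    simpa using h1
  have hv : ∫ x, exp (-(N * |x|)) ∂(annulus L) ≤ exp (-(N * L)) := by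
    have h1 : ∫ x, exp (-(N * |x|)) ∂(annulus L) ≤ ∫ _x, exp (-(N * L)) ∂(annulus L) := by
      refine integral_mono_ae (integrable_neg_exp _ hθ) (integrable_const _) ?_
      filter_upwards [annulus_ae L] with x hx
      exact exp_le_exp.2 (neg_le_neg (mul_le_mul_of_nonneg_left hx.1 hθ.le))
    simpa using h1
  have hu0 : 0 ≤ ∫ x, exp (N * |x|) ∂(annulus L) := integral_nonneg fun x => (exp_pos _).le
  have hv0 : 0 ≤ ∫ x, exp (-(N * |x|)) ∂(annulus L) := integral_nonneg fun x => (exp_pos _).le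
  calc ((k + 1 + 2 * d : ℕ) : ℝ) ^ 2 * (∫ x, exp (N * |x|) ∂(annulus L)) ^ (2 * d + 1) *
        (∫ x, exp (-(N * |x|)) ∂(annulus L)) ^ (k - 3)
      ≤ ((k + 1 + 2 * d : ℕ) : ℝ) ^ 2 * (exp (N * (L + 1 / 2))) ^ (2 * d + 1) *
        (exp (-(N * L))) ^ (k - 3) := by
        have h1 := pow_le_pow_left₀ hu0 hu (2 * d + 1)
        have h2 := pow_le_pow_left₀ hv0 hv (k - 3)
        have h3 : (0 : ℝ) ≤ ((k + 1 + 2 * d : ℕ) : ℝ) ^ 2 := by positivity
        exact mul_le_mul (mul_le_mul_of_nonneg_left h1 h3) h2 (pow_nonneg hv0 _)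
          (mul_nonneg h3 (pow_nonneg (exp_pos _).le _))
    _ ≤ ((k + 1 + 2 * d : ℕ) : ℝ) ^ 2 * exp (-((N : ℝ) * (1 / 2))) := by
        rw [mul_assoc]
        refine mul_le_mul_of_nonneg_left ?_ (by positivity)
        rw [← exp_nat_mul, ← exp_nat_mul, ← exp_add, exp_le_exp]
        have h4 : (2 * (d : ℝ) + 2) ≤ ((k - 3 : ℕ) : ℝ) := by
          have : 2 * d + 2 ≤ k - 3 := by omega
          exact_mod_cast this
        have h5 : ((2 * d + 1 : ℕ) : ℝ) = L := by rw [hL]; push_cast; ring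
        rw [h5]
        have h6 : (N : ℝ) * L * (2 * d + 2) ≤ N * L * ((k - 3 : ℕ) : ℝ) :=
          mul_le_mul_of_nonneg_left h4 (by positivity)
        have h7 : (1 : ℝ) ≤ L := by rw [hL]; have : (0 : ℝ) ≤ d := Nat.cast_nonneg d; linarith
        have h8 : (2 * (d : ℝ) + 2) = L + 1 := by rw [hL]; ring
        rw [h8] at h6
        nlinarith [mul_le_mul_of_nonneg_left h7 hθ.le]
    _ ≤ 1 / 5 := hN.1

end Pool.Agent.H995.EA
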